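import Mathlib

/-!
Reptiles with holes: definitions, and systems of small pieces.
-/

open Set Metric Topology Bornology

namespace Q139.Rep

/-- a tile: a bounded set that is the closure of its interior -/
def IsTile (X : Set ℂ) : Prop := IsBounded X ∧ X = closure (interior X)

/-- the piece `g (n^{-1/2} X)` -/
noncomputable def piece (n : ℕ) (X : Set ℂ) (g : ℂ ≃ᵢ ℂ) : Set ℂ :=
  g '' ((fun z : ℂ => (√(n : ℝ))⁻¹ • z) '' X)

/-- an `n`-reptile -/
def IsReptile (n : ℕ) (X : Set ℂ) : Prop :=
  2 ≤ n ∧ IsTile X ∧ ∃ g : Fin n → (ℂ ≃ᵢ ℂ), X = ⋃ i, piece n X (g i) ∧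
    ∀ i j, i ≠ j → Disjoint (interior (piece n X (g i))) (interior (piece n X (g j)))

/-- the complement has a bounded component -/
def HasHole (X : Set ℂ) : Prop := ∃ z ∈ Xᶜ, IsBounded (connectedComponentIn Xᶜ z)

/-- a finite system of pieces of ratio `r` -/
def Sys (X : Set ℂ) (r : ℝ) : Prop :=
  ∃ (ι : Type) (_ : Finite ι) (φ : ι → ℂ ≃ₜ ℂ), (∀ i x y, dist (φ i x) (φ i y) = r * dist x y) ∧
    X = ⋃ i, φ i '' X ∧ ∀ i j, i ≠ j → Disjoint (interior (φ i '' X)) (interior (φ j '' X))

theorem Sys.mul {X : Set ℂ} {r s : ℝ} (hr : Sys X r) (hs : Sys X s) : Sys X (r * s) := by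
  obtain ⟨ι, _, φ, h1, h2, h3⟩ := hr
  obtain ⟨κ, _, ψ, k1, k2, k3⟩ := hs
  refine ⟨ι × κ, inferInstance, fun p => (ψ p.2).trans (φ p.1), fun i x y => ?_, ?_, ?_⟩
  · simp only [Homeomorph.trans_apply]
    rw [h1, k1, mul_assoc]
  · have himg : ∀ (i : ι) (j : κ), ((ψ j).trans (φ i)) '' X = φ i '' (ψ j '' X) := by
      intro i j; rw [image_image]; rfl
    conv_lhs => rw [h2]
    ext x
    simp only [mem_iUnion, Prod.exists, himg]
    constructor
    · rintro ⟨i, hx⟩
      rw [k2, image_iUnion, mem_iUnion] at hx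
      obtain ⟨j, hj⟩ := hx
      exact ⟨i, j, hj⟩
    · rintro ⟨i, j, hj⟩
      refine ⟨i, image_mono ?_ hj⟩
      conv_rhs => rw [k2]
      exact subset_iUnion (fun j => ψ j '' X) j
  · rintro ⟨i, j⟩ ⟨i', j'⟩ hne
    have himg : ∀ (i : ι) (j : κ), ((ψ j).trans (φ i)) '' X = φ i '' (ψ j '' X) := by
      intro i j; rw [image_image]; rfl
    simp only [himg]
    have hsub : ∀ j, ψ j '' X ⊆ X := fun j => by
      conv_rhs => rw [k2]
      exact subset_iUnion (fun j => ψ j '' X) j
    by_cases hii : i = i'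
    · subst hii
      have hj : j ≠ j' := fun h => hne (by rw [h])
      rw [← (φ i).image_interior, ← (φ i).image_interior]
      exact (disjoint_image_iff (φ i).injective).2 (k3 j j' hj)
    · exact (h3 i i' hii).mono (interior_mono (image_mono (hsub j)))
        (interior_mono (image_mono (hsub j')))

theorem Sys.pow {X : Set ℂ} {r : ℝ} (hr : Sys X r) (k : ℕ) : Sys X (r ^ (k + 1)) := by
  induction k with
  | zero => simpa using hr
  | succ k ih => rw [pow_succ]; exact ih.mul hr

theorem IsReptile.sys {n : ℕ} {X : Set ℂ} (h : IsReptile n X) : Sys X (√(n : ℝ))⁻¹ := by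
  obtain ⟨hn, -, g, h1, h2⟩ := h
  have hs : (√(n : ℝ))⁻¹ ≠ 0 := by
    have : (0 : ℝ) < n := by exact_mod_cast (by omega : 0 < n)
    have := Real.sqrt_pos.2 this
    positivity
  have hpc : ∀ i, ((Homeomorph.smulOfNeZero _ hs).trans (g i).toHomeomorph) '' X = piece n X (g i) := by
    intro i
    rw [piece, image_image]
    rfl
  refine ⟨Fin n, inferInstance, fun i => (Homeomorph.smulOfNeZero _ hs).trans (g i).toHomeomorph,
    fun i x y => ?_, ?_, fun i j hij => ?_⟩
  · simp only [Homeomorph.trans_apply, IsometryEquiv.coe_toHomeomorph,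
      Homeomorph.smulOfNeZero_apply, (g i).dist_eq, dist_smul₀, Real.norm_eq_abs]
    rw [abs_of_nonneg (by positivity)]
  · simp only [hpc]; exact h1
  · rw [hpc, hpc]; exact h2 i j hij

/-- systems with arbitrarily small ratio -/
theorem IsReptile.small {n : ℕ} {X : Set ℂ} (h : IsReptile n X) {e : ℝ} (he : 0 < e) :
    ∃ r, 0 < r ∧ r < e ∧ Sys X r := by
  have hn : (2 : ℝ) ≤ n := by exact_mod_cast h.1
  have h1 : 1 < √(n : ℝ) := by
    rw [Real.lt_sqrt (by norm_num)]; linarith
  have h2 : (√(n : ℝ))⁻¹ < 1 := inv_lt_one_of_one_lt₀ h1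
  obtain ⟨k, hk⟩ := exists_pow_lt_of_lt_one he h2
  refine ⟨(√(n : ℝ))⁻¹ ^ (k + 1), by positivity, ?_, h.sys.pow k⟩
  refine lt_of_le_of_lt ?_ hk
  exact pow_le_pow_of_le_one (by positivity) h2.le (by omega)

/-- an isometry mapping a compact set into itself maps it onto itself -/
theorem image_eq_of_subset {K : Set ℂ} (hK : IsCompact K) (h : ℂ ≃ᵢ ℂ) (hs : h '' K ⊆ K) :
    h '' K = K := by
  refine subset_antisymm hs fun x hx => ?_
  have hcl : IsClosed (h '' K) := (hK.image h.continuous).isClosed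
  have hit : ∀ n, h^[n] x ∈ K := by
    intro n
    induction n with
    | zero => exact hx
    | succ n ih => rw [Function.iterate_succ_apply']; exact hs ⟨_, ih, rfl⟩
  have hit' : ∀ n, h^[n + 1] x ∈ h '' K := fun n => by
    rw [Function.iterate_succ_apply']; exact ⟨_, hit n, rfl⟩
  rw [← hcl.closure_eq, Metric.mem_closure_iff]
  intro e he
  obtain ⟨a, -, φ, hφ, hlim⟩ := hK.tendsto_subseq hit
  obtain ⟨N, hN⟩ := (Metric.tendsto_atTop.1 hlim) (e / 2) (by linarith)
  have hlt : φ N < φ (N + 1) := hφ (Nat.lt_succ_self N)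
  have h1 := hN N le_rfl
  have h2 := hN (N + 1) (Nat.le_succ N)
  have h3 : dist (h^[φ N] x) (h^[φ (N + 1)] x) < e := by
    calc _ ≤ dist (h^[φ N] x) a + dist (h^[φ (N + 1)] x) a := dist_triangle_right _ _ _
      _ < e := by simp only [Function.comp_apply] at h1 h2; linarith
  obtain ⟨k, hk⟩ : ∃ k, φ (N + 1) = φ N + (k + 1) := ⟨φ (N + 1) - φ N - 1, by omega⟩
  have h4 : dist (h^[φ N] x) (h^[φ (N + 1)] x) = dist x (h^[k + 1] x) := by
    rw [hk, Function.iterate_add_apply]
    have hiso : Isometry (h^[φ N]) := by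
      have := h.isometry
      induction φ N with
      | zero => exact isometry_id
      | succ n ih => rw [Function.iterate_succ']; exact this.comp ih
    exact hiso.dist_eq _ _
  rw [h4] at h3
  exact ⟨_, hit' k, h3⟩

/-- three extreme points -/
theorem three_extreme {K : Set ℂ} (hK : IsCompact K) (hc : Convex ℝ K)
    (hint : (interior K).Nonempty) :
    ∃ e : Fin 3 → ℂ, Function.Injective e ∧ ∀ i, e i ∈ extremePoints ℝ K := by
  have hKM := closure_convexHull_extremePoints hK hc
  have hex : ∀ a b : ℂ, ∃ c ∈ extremePoints ℝ K, c ≠ a ∧ c ≠ b := by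
    intro a b
    by_contra hcon
    push Not at hcon
    have hsub : extremePoints ℝ K ⊆ {a, b} := by
      intro c hc
      by_cases h : c = a
      · left; exact h
      · right; exact hcon c hc h
    have h1 : K ⊆ segment ℝ a b := by
      rw [← hKM]
      rw [← convexHull_pair]
      refine closure_minimal (convexHull_mono hsub) ?_
      exact (Set.Finite.isCompact_convexHull ℝ (Set.toFinite _)).isClosed
    have h2 : (interior (convexHull ℝ ({a, b} : Set ℂ))).Nonempty := by
      rw [convexHull_pair]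
      exact hint.mono (interior_mono h1)
    rw [(convex_convexHull ℝ _).interior_nonempty_iff_affineSpan_eq_top,
      affineSpan_convexHull] at h2
    have h3 := (collinear_iff_finrank_le_one (k := ℝ)).1 (collinear_pair ℝ a b)
    rw [← direction_affineSpan, h2, AffineSubspace.direction_top, finrank_top,
      Complex.finrank_real_complex] at h3
    omega
  obtain ⟨a, ha, -, -⟩ := hex 0 0
  obtain ⟨b, hb, hba, -⟩ := hex a a
  obtain ⟨c, hc, hca, hcb⟩ := hex a b
  refine ⟨![a, b, c], ?_, ?_⟩
  · intro i j hij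
    fin_cases i <;> fin_cases j <;> simp_all
  · intro i
    fin_cases i
    · exact ha
    · exact hb
    · exact hc

/-- points outside a large disk can be joined there -/
theorem joined_far (c : ℂ) (R : ℝ) (hR : 0 < R) {x y : ℂ} (hx : R ≤ dist x c) (hy : R ≤ dist y c) :
    JoinedIn {z | R ≤ dist z c} x y := by
  let F : ℝ × ℝ → ℂ := fun p => c + (p.1 : ℂ) * Complex.exp (p.2 * Complex.I)
  have hF : Continuous F := by fun_prop
  have hpc : IsPathConnected (F '' (Ici R ×ˢ univ)) := by
    refine IsPathConnected.image ?_ hF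
    have hconv : Convex ℝ (Ici R ×ˢ (univ : Set ℝ)) := (convex_Ici R).prod convex_univ
    exact hconv.isPathConnected ⟨(R, 0), by simp⟩
  have himg : F '' (Ici R ×ˢ univ) = {z | R ≤ dist z c} := by
    ext z
    constructor
    · rintro ⟨⟨r, t⟩, ⟨hr, -⟩, rfl⟩
      simp only [F, mem_Ici] at hr ⊢
      change R ≤ dist (c + (r : ℂ) * Complex.exp (t * Complex.I)) c
      rw [dist_eq_norm, add_sub_cancel_left, norm_mul, Complex.norm_exp_ofReal_mul_I, mul_one,
        Complex.norm_real, Real.norm_of_nonneg (hR.le.trans hr)]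
      exact hr
    · intro hz
      refine ⟨(‖z - c‖, Complex.arg (z - c)), ⟨?_, trivial⟩, ?_⟩
      · change R ≤ ‖z - c‖
        rw [← dist_eq_norm]; exact hz
      · simp only [F]
        rw [Complex.norm_mul_exp_arg_mul_I]; ring
  rw [himg] at hpc
  exact hpc.joinedIn x hx y hy

/-- a point of a compact convex set that is not in the interior can be joined to any outer point
outside the set -/
theorem joined_out {K : Set ℂ} (hK : IsCompact K) (hc : Convex ℝ K) {c : ℂ}
    (hci : c ∈ interior K) {e : ℂ} (he : e ∉ interior K) {o : ℂ} (ho : o ∉ K) :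
    JoinedIn (Kᶜ ∪ {e}) e o := by
  obtain ⟨R, hR⟩ := hK.isBounded.subset_ball c
  have hR' : K ⊆ ball c (max R 1) := hR.trans (ball_subset_ball (le_max_left _ _))
  set Q := max R 1 with hQ
  have hQ0 : 0 < Q := lt_of_lt_of_le one_pos (le_max_right _ _)
  have hfar : {z | Q ≤ dist z c} ⊆ Kᶜ ∪ {e} := by
    intro z hz
    left
    intro hzK
    have := hR' hzK
    rw [mem_ball] at this
    exact absurd this (not_lt.2 hz)
  -- radial paths
  have hrad : ∀ x : ℂ, x ∉ interior K → x ∈ Kᶜ ∪ {e} →
      ∃ y, Q ≤ dist y c ∧ JoinedIn (Kᶜ ∪ {e}) x y := by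
    intro x hxi hx
    have hxc : x ≠ c := by rintro rfl; exact hxi hci
    have hd : 0 < dist x c := dist_pos.2 hxc
    let s : ℝ := max 1 (Q / dist x c)
    have hs1 : 1 ≤ s := le_max_left _ _
    let y : ℂ := c + s • (x - c)
    have hy : Q ≤ dist y c := by
      simp only [y]
      rw [dist_eq_norm, add_sub_cancel_left, norm_smul, Real.norm_of_nonneg (by linarith),
        ← dist_eq_norm]
      have : Q / dist x c ≤ s := le_max_right _ _
      rwa [div_le_iff₀ hd] at this
    refine ⟨y, hy, ?_⟩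
    have hseg : segment ℝ x y ⊆ Kᶜ ∪ {e} := by
      rw [segment_eq_image']
      rintro _ ⟨t, ⟨ht0, ht1⟩, rfl⟩
      simp only
      have hq : x + t • (y - x) = c + (1 + t * (s - 1)) • (x - c) := by
        simp only [y, Complex.real_smul]
        push_cast
        ring
      rw [hq]
      set q := 1 + t * (s - 1) with hqd
      have hq1 : 1 ≤ q := by
        have : 0 ≤ t * (s - 1) := mul_nonneg ht0 (by linarith)
        linarith
      rcases hq1.eq_or_lt with h | h
      · rw [← h, one_smul, add_sub_cancel]; exact hx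
      · left
        intro hz
        apply hxi
        refine hc.openSegment_interior_self_subset_interior hci hz ?_
        rw [openSegment_eq_image']
        refine ⟨q⁻¹, ⟨by positivity, inv_lt_one_of_one_lt₀ h⟩, ?_⟩
        simp only [add_sub_cancel_left]
        rw [smul_smul, inv_mul_cancel₀ (by linarith), one_smul, add_sub_cancel]
    exact JoinedIn.of_segment_subset hseg
  obtain ⟨y, hy, hey⟩ := hrad e he (Or.inr rfl)
  obtain ⟨z, hz, hoz⟩ := hrad o (fun h => ho (interior_subset h)) (Or.inl ho)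
  exact (hey.trans ((joined_far c Q hQ0 hy hz).mono hfar)).trans hoz.symm

end Q139.Rep
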