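import Pool.Agent.Q139.Rep.Levy3

/-!
The Lévy dragon has a hole.
-/

open Set Metric Topology Bornology Complex

namespace Q139.Rep.Levy

theorem joined_E (a b u v : ℝ) (n : ℕ) :
    JoinedIn (E a b u v '' A n) (E a b u v 0) (E a b u v 1) :=
  ((isPathConnected_A n).image (continuous_E a b u v)).joinedIn _ ⟨0, (zero_one_mem n).1, rfl⟩ _
    ⟨1, (zero_one_mem n).2, rfl⟩

noncomputable def pa : ℂ := ⟨3 / 8, 5 / 8⟩
noncomputable def pb : ℂ := ⟨5 / 8, 5 / 8⟩
noncomputable def pc : ℂ := ⟨1 / 2, 3 / 4⟩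

def far : Set ℂ := {z | 3 ≤ dist z p0}

theorem not_far {z : ℂ} (h1 : |z.re - 1 / 2| ≤ 1) (h2 : |z.im - 5 / 8| ≤ 1) : z ∉ far := by
  intro h
  have h3 : dist z p0 ≤ |z.re - 1 / 2| + |z.im - 5 / 8| := by
    rw [dist_eq_norm]
    refine (norm_le_abs_re_add_abs_im _).trans (le_of_eq ?_)
    simp [p0]
  have h4 : (3 : ℝ) ≤ dist z p0 := h
  linarith

theorem R_not_far {z : ℂ} (hz : z ∈ R) : z ∉ far := by
  simp only [R, mem_ofPred_eq] at hz
  obtain ⟨h1, h2, h3, h4, h5, h6, h7, h8⟩ := hz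
  exact not_far (abs_le.2 ⟨by linarith, by linarith⟩) (abs_le.2 ⟨by linarith, by linarith⟩)

theorem convex_h (y a b : ℝ) : Convex ℝ {z : ℂ | z.im = y ∧ a ≤ z.re ∧ z.re ≤ b} := by
  intro z hz w hw s t hs ht hst
  simp only [mem_ofPred_eq, add_im, add_re, real_smul, re_ofReal_mul, im_ofReal_mul] at hz hw ⊢
  obtain ⟨h1, h2, h3⟩ := hz
  obtain ⟨k1, k2, k3⟩ := hw
  have ht' : t = 1 - s := by linarith
  subst ht'
  refine ⟨by rw [h1, k1]; ring, by nlinarith, by nlinarith⟩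

theorem convex_v (x a b : ℝ) : Convex ℝ {z : ℂ | z.re = x ∧ a ≤ z.im ∧ z.im ≤ b} := by
  intro z hz w hw s t hs ht hst
  simp only [mem_ofPred_eq, add_im, add_re, real_smul, re_ofReal_mul, im_ofReal_mul] at hz hw ⊢
  obtain ⟨h1, h2, h3⟩ := hz
  obtain ⟨k1, k2, k3⟩ := hw
  have ht' : t = 1 - s := by linarith
  subst ht'
  refine ⟨by rw [h1, k1]; ring, by nlinarith, by nlinarith⟩

theorem joined_convex {S : Set ℂ} (hS : Convex ℝ S) {x y : ℂ} (hx : x ∈ S) (hy : y ∈ S) :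
    JoinedIn S x y := JoinedIn.of_segment_subset (hS.segment_subset hx hy)

def L03 : Set ℂ := {z | z.im = 5 / 8 ∧ 3 / 8 ≤ z.re ∧ z.re ≤ 1 / 2}
def L13 : Set ℂ := {z | z.im = 5 / 8 ∧ 1 / 2 ≤ z.re ∧ z.re ≤ 5 / 8}
def L23 : Set ℂ := {z | z.re = 1 / 2 ∧ 5 / 8 ≤ z.im ∧ z.im ≤ 3 / 4}
def L04 : Set ℂ := {z | z.im = 5 / 8 ∧ -10 ≤ z.re ∧ z.re ≤ 3 / 8} ∪ far
def L14 : Set ℂ := {z | z.im = 5 / 8 ∧ 5 / 8 ≤ z.re ∧ z.re ≤ 10} ∪ far
def L24 : Set ℂ := {z | z.re = 1 / 2 ∧ 3 / 4 ≤ z.im ∧ z.im ≤ 10} ∪ far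

theorem far_of {z : ℂ} (h : 3 ≤ |z.re - 1 / 2| ∨ 3 ≤ |z.im - 5 / 8|) : z ∈ far := by
  change 3 ≤ dist z p0
  rw [dist_eq_norm]
  rcases h with h | h
  · refine h.trans ?_
    have := abs_re_le_norm (z - p0)
    simpa [p0] using this
  · refine h.trans ?_
    have := abs_im_le_norm (z - p0)
    simpa [p0] using this

theorem j04 {q : ℂ} (hq : q ∈ far) : JoinedIn L04 pa q := by
  have h1 : JoinedIn {z : ℂ | z.im = 5 / 8 ∧ -10 ≤ z.re ∧ z.re ≤ 3 / 8} pa ⟨-10, 5 / 8⟩ :=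
    joined_convex (convex_h _ _ _) ⟨rfl, by norm_num [pa], by norm_num [pa]⟩ ⟨rfl, le_rfl, by norm_num⟩
  have h2 : JoinedIn far ⟨-10, 5 / 8⟩ q :=
    joined_far p0 3 (by norm_num) (far_of (Or.inl (by norm_num [abs_of_neg]))) hq
  exact (h1.mono subset_union_left).trans (h2.mono subset_union_right)

theorem j14 {q : ℂ} (hq : q ∈ far) : JoinedIn L14 pb q := by
  have h1 : JoinedIn {z : ℂ | z.im = 5 / 8 ∧ 5 / 8 ≤ z.re ∧ z.re ≤ 10} pb ⟨10, 5 / 8⟩ :=
    joined_convex (convex_h _ _ _) ⟨rfl, by norm_num [pb], by norm_num [pb]⟩ ⟨rfl, by norm_num, le_rfl⟩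
  have h2 : JoinedIn far ⟨10, 5 / 8⟩ q :=
    joined_far p0 3 (by norm_num) (far_of (Or.inl (by norm_num [abs_of_pos]))) hq
  exact (h1.mono subset_union_left).trans (h2.mono subset_union_right)

theorem j24 {q : ℂ} (hq : q ∈ far) : JoinedIn L24 pc q := by
  have h1 : JoinedIn {z : ℂ | z.re = 1 / 2 ∧ 3 / 4 ≤ z.im ∧ z.im ≤ 10} pc ⟨1 / 2, 10⟩ :=
    joined_convex (convex_v _ _ _) ⟨rfl, by norm_num [pc], by norm_num [pc]⟩ ⟨rfl, by norm_num, le_rfl⟩
  have h2 : JoinedIn far ⟨1 / 2, 10⟩ q :=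
    joined_far p0 3 (by norm_num) (far_of (Or.inr (by norm_num [abs_of_pos]))) hq
  exact (h1.mono subset_union_left).trans (h2.mono subset_union_right)

theorem j03 : JoinedIn L03 pa p0 :=
  joined_convex (convex_h _ _ _) ⟨rfl, by norm_num [pa], by norm_num [pa]⟩
    ⟨rfl, by norm_num [p0], by norm_num [p0]⟩
theorem j13 : JoinedIn L13 pb p0 :=
  joined_convex (convex_h _ _ _) ⟨rfl, by norm_num [pb], by norm_num [pb]⟩
    ⟨rfl, by norm_num [p0], by norm_num [p0]⟩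
theorem j23 : JoinedIn L23 pc p0 :=
  joined_convex (convex_v _ _ _) ⟨rfl, by norm_num [pc], by norm_num [pc]⟩
    ⟨rfl, by norm_num [p0], by norm_num [p0]⟩

def S01 (n : ℕ) : Set ℂ := E 3 4 0 1 '' A n ∪ E 4 4 (-1) 0 '' A n ∪ (E 5 4 (-1) 0 '' A n ∪
  E 5 5 0 (-1) '' A n)
def S02 (n : ℕ) : Set ℂ := E 3 5 0 1 '' A n ∪ E 3 6 1 0 '' A n
def S12 (n : ℕ) : Set ℂ := E 5 6 0 (-1) '' A n ∪ E 4 6 1 0 '' A n

theorem j01 (n : ℕ) : JoinedIn (S01 n) pa pb := by
  have e1 := (joined_E 3 4 0 1 n).symm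
  have e2 := (joined_E 4 4 (-1) 0 n).symm
  have e3 := (joined_E 5 4 (-1) 0 n).symm
  have e4 := (joined_E 5 5 0 (-1) n).symm
  have a1 : E 3 4 0 1 1 = pa := by apply Complex.ext <;> simp [E, pa] <;> norm_num
  have a2 : E 3 4 0 1 0 = E 4 4 (-1) 0 1 := by apply Complex.ext <;> simp [E] <;> norm_num
  have a3 : E 4 4 (-1) 0 0 = E 5 4 (-1) 0 1 := by apply Complex.ext <;> simp [E] <;> norm_num
  have a4 : E 5 4 (-1) 0 0 = E 5 5 0 (-1) 1 := by apply Complex.ext <;> simp [E] <;> norm_num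
  have a5 : E 5 5 0 (-1) 0 = pb := by apply Complex.ext <;> simp [E, pb]
  rw [a1, a2] at e1
  rw [a3] at e2
  rw [a4] at e3
  rw [a5] at e4
  exact ((e1.mono subset_union_left).trans (e2.mono subset_union_right)).mono subset_union_left
    |>.trans (((e3.mono subset_union_left).trans (e4.mono subset_union_right)).mono
      subset_union_right)

theorem j02 (n : ℕ) : JoinedIn (S02 n) pa pc := by
  have e1 := joined_E 3 5 0 1 n
  have e2 := joined_E 3 6 1 0 n
  have a1 : E 3 5 0 1 0 = pa := by apply Complex.ext <;> simp [E, pa]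
  have a2 : E 3 5 0 1 1 = E 3 6 1 0 0 := by apply Complex.ext <;> simp [E] <;> norm_num
  have a3 : E 3 6 1 0 1 = pc := by apply Complex.ext <;> simp [E, pc] <;> norm_num
  rw [a1, a2] at e1
  rw [a3] at e2
  exact (e1.mono subset_union_left).trans (e2.mono subset_union_right)

theorem j12 (n : ℕ) : JoinedIn (S12 n) pb pc := by
  have e1 := (joined_E 5 6 0 (-1) n).symm
  have e2 := (joined_E 4 6 1 0 n).symm
  have a1 : E 5 6 0 (-1) 1 = pb := by apply Complex.ext <;> simp [E, pb] <;> norm_num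
  have a2 : E 5 6 0 (-1) 0 = E 4 6 1 0 1 := by apply Complex.ext <;> simp [E] <;> norm_num
  have a3 : E 4 6 1 0 0 = pc := by apply Complex.ext <;> simp [E, pc] <;> norm_num
  rw [a1, a2] at e1
  rw [a3] at e2
  exact (e1.mono subset_union_left).trans (e2.mono subset_union_right)

theorem S01_sub (n : ℕ) : S01 n ⊆ A (n + 6) := by
  rintro z ((⟨w, hw, rfl⟩ | ⟨w, hw, rfl⟩) | (⟨w, hw, rfl⟩ | ⟨w, hw, rfl⟩))
  · exact E33 hw
  · exact E32 hw
  · exact E31 hw
  · exact E30 hw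

theorem S02_sub (n : ℕ) : S02 n ⊆ A (n + 6) := by
  rintro z (⟨w, hw, rfl⟩ | ⟨w, hw, rfl⟩)
  · exact E34 hw
  · exact E35 hw

theorem S12_sub (n : ℕ) : S12 n ⊆ A (n + 6) := by
  rintro z (⟨w, hw, rfl⟩ | ⟨w, hw, rfl⟩)
  · exact E29 hw
  · exact E28 hw

theorem im_ge {n : ℕ} {w : ℂ} (hw : w ∈ A n) : -1 / 4 ≤ w.im := by
  have : w ∈ R := A_anti (Nat.zero_le n) hw
  exact this.2.2.2.2.2.2.1

theorem S01_up {n : ℕ} {z : ℂ} (hz : z ∈ S01 n) : ¬ (z.re = 1 / 2 ∧ 5 / 8 ≤ z.im) := by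
  rintro ⟨h1, h2⟩
  rcases hz with (⟨w, hw, rfl⟩ | ⟨w, hw, rfl⟩) | (⟨w, hw, rfl⟩ | ⟨w, hw, rfl⟩) <;>
    (have := im_ge hw; simp only [E_re, E_im] at h1 h2; linarith)

theorem S02_right {n : ℕ} {z : ℂ} (hz : z ∈ S02 n) : ¬ (z.im = 5 / 8 ∧ 1 / 2 ≤ z.re) := by
  rintro ⟨h1, h2⟩
  rcases hz with ⟨w, hw, rfl⟩ | ⟨w, hw, rfl⟩ <;>
    (have := im_ge hw; simp only [E_re, E_im] at h1 h2; linarith)

theorem S12_left {n : ℕ} {z : ℂ} (hz : z ∈ S12 n) : ¬ (z.im = 5 / 8 ∧ z.re ≤ 1 / 2) := by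
  rintro ⟨h1, h2⟩
  rcases hz with ⟨w, hw, rfl⟩ | ⟨w, hw, rfl⟩ <;>
    (have := im_ge hw; simp only [E_re, E_im] at h1 h2; linarith)

theorem A_not_far {n : ℕ} {z : ℂ} (hz : z ∈ A n) : z ∉ far := R_not_far (A_anti (Nat.zero_le n) hz)

theorem hole : HasHole X := by
  refine ⟨p0, p0_notMem, ?_⟩
  by_contra hunb
  -- a far point in the component
  obtain ⟨q, hqc, hq⟩ : ∃ q ∈ connectedComponentIn Xᶜ p0, q ∈ far := by
    by_contra hcon
    push Not at hcon
    apply hunb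
    refine (isBounded_ball (x := p0) (r := 3)).subset fun z hz => ?_
    have := hcon z hz
    change ¬ (3 ≤ dist z p0) at this
    rw [mem_ball]; linarith
  have hop : IsOpen (connectedComponentIn Xᶜ p0) :=
    isCompact_X.isClosed.isOpen_compl.connectedComponentIn
  have hcon : IsConnected (connectedComponentIn Xᶜ p0) :=
    isConnected_connectedComponentIn_iff.2 p0_notMem
  have hj : JoinedIn (connectedComponentIn Xᶜ p0) p0 q :=
    (hop.isConnected_iff_isPathConnected.1 hcon).joinedIn p0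
      (mem_connectedComponentIn p0_notMem) q hqc
  obtain ⟨Γ, hΓ, hΓc, -, -, -, hΓj⟩ := exists_range (hj.mono (connectedComponentIn_subset _ _))
  -- an approximation that avoids the path
  obtain ⟨N, hN⟩ : ∃ N, Disjoint Γ (A N) := by
    by_contra hno
    push Not at hno
    have h1 : (⋂ n, Γ ∩ A n).Nonempty := by
      apply IsCompact.nonempty_iInter_of_sequence_nonempty_isCompact_isClosed
      · intro n
        exact inter_subset_inter_right _ (A_anti_succ n)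
      · intro n
        rw [← not_disjoint_iff_nonempty_inter]; exact hno n
      · exact hΓc.inter (isCompact_A 0)
      · exact fun n => hΓc.isClosed.inter (isCompact_A n).isClosed
    obtain ⟨x, hx⟩ := h1
    rw [mem_iInter] at hx
    exact hΓ (hx 0).1 (mem_X.2 fun n => (hx n).2)
  have hA6 : A (N + 6) ⊆ A N := A_anti (by omega)
  -- disjointness
  have d01_34 : Disjoint (S01 N) Γ := (hN.mono_right ((S01_sub N).trans hA6)).symm
  have d02_34 : Disjoint (S02 N) Γ := (hN.mono_right ((S02_sub N).trans hA6)).symm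
  have d12_34 : Disjoint (S12 N) Γ := (hN.mono_right ((S12_sub N).trans hA6)).symm
  have d01_23 : Disjoint (S01 N) L23 := disjoint_left.2 fun z h1 h2 => S01_up h1 ⟨h2.1, h2.2.1⟩
  have d01_24 : Disjoint (S01 N) L24 := by
    refine disjoint_left.2 fun z h1 h2 => ?_
    rcases h2 with h2 | h2
    · exact S01_up h1 ⟨h2.1, by linarith [h2.2.1]⟩
    · exact A_not_far (S01_sub N h1) h2
  have d02_13 : Disjoint (S02 N) L13 := disjoint_left.2 fun z h1 h2 => S02_right h1 ⟨h2.1, h2.2.1⟩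
  have d02_14 : Disjoint (S02 N) L14 := by
    refine disjoint_left.2 fun z h1 h2 => ?_
    rcases h2 with h2 | h2
    · exact S02_right h1 ⟨h2.1, by linarith [h2.2.1]⟩
    · exact A_not_far (S02_sub N h1) h2
  have d12_03 : Disjoint (S12 N) L03 := disjoint_left.2 fun z h1 h2 => S12_left h1 ⟨h2.1, h2.2.2⟩
  have d12_04 : Disjoint (S12 N) L04 := by
    refine disjoint_left.2 fun z h1 h2 => ?_
    rcases h2 with h2 | h2
    · exact S12_left h1 ⟨h2.1, by linarith [h2.2.2]⟩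
    · exact A_not_far (S12_sub N h1) h2
  have nf : ∀ z : ℂ, 0 ≤ z.re → z.re ≤ 1 → 0 ≤ z.im → z.im ≤ 1 → z ∉ far := by
    intro z h1 h2 h3 h4
    exact not_far (abs_le.2 ⟨by linarith, by linarith⟩) (abs_le.2 ⟨by linarith, by linarith⟩)
  have d03_14 : Disjoint L03 L14 := by
    refine disjoint_left.2 fun z h1 h2 => ?_
    rcases h2 with h2 | h2
    · linarith [h1.2.2, h2.2.1]
    · exact nf z (by linarith [h1.2.1]) (by linarith [h1.2.2]) (by linarith [h1.1]) (by linarith [h1.1]) h2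
  have d03_24 : Disjoint L03 L24 := by
    refine disjoint_left.2 fun z h1 h2 => ?_
    rcases h2 with h2 | h2
    · linarith [h1.1, h2.2.1]
    · exact nf z (by linarith [h1.2.1]) (by linarith [h1.2.2]) (by linarith [h1.1]) (by linarith [h1.1]) h2
  have d13_04 : Disjoint L13 L04 := by
    refine disjoint_left.2 fun z h1 h2 => ?_
    rcases h2 with h2 | h2
    · linarith [h1.2.1, h2.2.2]
    · exact nf z (by linarith [h1.2.1]) (by linarith [h1.2.2]) (by linarith [h1.1]) (by linarith [h1.1]) h2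
  have d13_24 : Disjoint L13 L24 := by
    refine disjoint_left.2 fun z h1 h2 => ?_
    rcases h2 with h2 | h2
    · linarith [h1.1, h2.2.1]
    · exact nf z (by linarith [h1.2.1]) (by linarith [h1.2.2]) (by linarith [h1.1]) (by linarith [h1.1]) h2
  have d23_04 : Disjoint L23 L04 := by
    refine disjoint_left.2 fun z h1 h2 => ?_
    rcases h2 with h2 | h2
    · linarith [h1.1, h2.2.2]
    · exact nf z (by linarith [h1.1]) (by linarith [h1.1]) (by linarith [h1.2.1]) (by linarith [h1.2.2]) h2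
  have d23_14 : Disjoint L23 L14 := by
    refine disjoint_left.2 fun z h1 h2 => ?_
    rcases h2 with h2 | h2
    · linarith [h1.1, h2.2.1]
    · exact nf z (by linarith [h1.1]) (by linarith [h1.1]) (by linarith [h1.2.1]) (by linarith [h1.2.2]) h2
  -- the drawing of `K₅`
  let p : Fin 5 → ℂ := ![pa, pb, pc, p0, q]
  let S : Fin 5 → Fin 5 → Set ℂ := ![![∅, S01 N, S02 N, L03, L04], ![∅, ∅, S12 N, L13, L14],
    ![∅, ∅, ∅, L23, L24], ![∅, ∅, ∅, ∅, Γ], ![∅, ∅, ∅, ∅, ∅]]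
  refine Pool.Agent.Helper479.Bond.VK.k5_joined p S ?_ ?_
  · intro a b hab
    fin_cases a <;> fin_cases b <;> first | (exact absurd hab (by decide)) | skip
    · exact j01 N
    · exact j02 N
    · exact j03
    · exact j04 hq
    · exact j12 N
    · exact j13
    · exact j14 hq
    · exact j23
    · exact j24 hq
    · exact hΓj
  · intro a b c d hab hcd hac had hbc hbd
    fin_cases a <;> fin_cases b <;> first | (exact absurd hab (by decide)) | skip
    all_goals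
      fin_cases c <;> fin_cases d <;>
      first | (exact absurd hcd (by decide)) | (exact absurd rfl hac) | (exact absurd rfl had) |
        (exact absurd rfl hbc) | (exact absurd rfl hbd) | exact d01_34 | exact d01_34.symm |
        exact d02_34 | exact d02_34.symm | exact d12_34 | exact d12_34.symm | exact d01_23 |
        exact d01_23.symm | exact d01_24 | exact d01_24.symm | exact d02_13 | exact d02_13.symm |
        exact d02_14 | exact d02_14.symm | exact d12_03 | exact d12_03.symm | exact d12_04 |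
        exact d12_04.symm | exact d03_14 | exact d03_14.symm | exact d03_24 | exact d03_24.symm |
        exact d13_04 | exact d13_04.symm | exact d13_24 | exact d13_24.symm | exact d23_04 |
        exact d23_04.symm | exact d23_14 | exact d23_14.symm

end Q139.Rep.Levy
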