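import Pool.Agent.Q139.Rep.Wada

/-!
The Lévy dragon: approximations, covering of the plane, and interior.
-/

open Set Metric Topology Bornology Complex

namespace Q139.Rep.Levy

/-- the octagon -/
def R : Set ℂ := {z | z.re ≤ 3 / 2 ∧ z.re + z.im ≤ 2 ∧ z.im ≤ 1 ∧ z.im - z.re ≤ 1 ∧ -1 / 2 ≤ z.re ∧
  -1 / 2 ≤ z.re + z.im ∧ -1 / 4 ≤ z.im ∧ z.re - z.im ≤ 3 / 2}

/-- inverse branches -/
def g1 (z : ℂ) : ℂ := (1 - I) * z
def g2 (z : ℂ) : ℂ := (1 + I) * z - I

/-- branches -/
noncomputable def f1 (z : ℂ) : ℂ := (1 + I) / 2 * z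
noncomputable def f2 (z : ℂ) : ℂ := (1 - I) / 2 * z + (1 + I) / 2

theorem I2 : I * I = -1 := I_mul_I

theorem g1_f1 (z : ℂ) : g1 (f1 z) = z := by
  simp only [g1, f1]; linear_combination (-z / 2) * I2
theorem f1_g1 (z : ℂ) : f1 (g1 z) = z := by
  simp only [g1, f1]; linear_combination (-z / 2) * I2
theorem g2_f2 (z : ℂ) : g2 (f2 z) = z := by
  simp only [g2, f2]; linear_combination (-z / 2 + 1 / 2) * I2
theorem f2_g2 (z : ℂ) : f2 (g2 z) = z := by
  simp only [g2, f2]; linear_combination (-z / 2 + 1 / 2) * I2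

theorem g1_re (z : ℂ) : (g1 z).re = z.re + z.im := by simp [g1]
theorem g1_im (z : ℂ) : (g1 z).im = z.im - z.re := by simp [g1]; ring
theorem g2_re (z : ℂ) : (g2 z).re = z.re - z.im := by simp [g2]
theorem g2_im (z : ℂ) : (g2 z).im = z.re + z.im - 1 := by simp [g2]; ring

/-- the approximations -/
def A : ℕ → Set ℂ
  | 0 => R
  | n + 1 => {z | g1 z ∈ A n ∨ g2 z ∈ A n}

theorem A_succ (n : ℕ) (z : ℂ) : z ∈ A (n + 1) ↔ g1 z ∈ A n ∨ g2 z ∈ A n := Iff.rfl

theorem A_anti_succ (n : ℕ) : A (n + 1) ⊆ A n := by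
  induction n with
  | zero =>
    intro z hz
    rcases hz with h | h
    · change g1 z ∈ R at h
      simp only [R, mem_ofPred_eq, g1_re, g1_im] at h
      change z ∈ R
      simp only [R, mem_ofPred_eq]
      obtain ⟨h1, h2, h3, h4, h5, h6, h7, h8⟩ := h
      refine ⟨?_, ?_, ?_, ?_, ?_, ?_, ?_, ?_⟩ <;> linarith
    · change g2 z ∈ R at h
      simp only [R, mem_ofPred_eq, g2_re, g2_im] at h
      change z ∈ R
      simp only [R, mem_ofPred_eq]
      obtain ⟨h1, h2, h3, h4, h5, h6, h7, h8⟩ := h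
      refine ⟨?_, ?_, ?_, ?_, ?_, ?_, ?_, ?_⟩ <;> linarith
  | succ n ih =>
    intro z hz
    rcases hz with h | h
    · exact Or.inl (ih h)
    · exact Or.inr (ih h)

theorem A_anti : Antitone A := antitone_nat_of_succ_le A_anti_succ

/-- the Lévy dragon -/
def X : Set ℂ := ⋂ n, A n

theorem mem_X {z : ℂ} : z ∈ X ↔ ∀ n, z ∈ A n := mem_iInter

theorem mem_X_iff (z : ℂ) : z ∈ X ↔ g1 z ∈ X ∨ g2 z ∈ X := by
  constructor
  · intro h
    by_contra hcon
    push Not at hcon
    simp only [mem_X, not_forall] at hcon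
    obtain ⟨⟨a, ha⟩, b, hb⟩ := hcon
    rcases mem_X.1 h (max a b + 1) with h1 | h1
    · exact ha (A_anti (le_max_left a b) h1)
    · exact hb (A_anti (le_max_right a b) h1)
  · rintro (h | h)
    · rw [mem_X]; intro n
      exact A_anti_succ n (Or.inl (mem_X.1 h n))
    · rw [mem_X]; intro n
      exact A_anti_succ n (Or.inr (mem_X.1 h n))

theorem X_eq : X = f1 '' X ∪ f2 '' X := by
  ext z
  rw [mem_X_iff]
  constructor
  · rintro (h | h)
    · left; exact ⟨g1 z, h, f1_g1 z⟩
    · right; exact ⟨g2 z, h, f2_g2 z⟩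
  · rintro (⟨w, hw, rfl⟩ | ⟨w, hw, rfl⟩)
    · left; rwa [g1_f1]
    · right; rwa [g2_f2]

theorem A_eq (n : ℕ) : A (n + 1) = f1 '' A n ∪ f2 '' A n := by
  ext z
  rw [A_succ]
  constructor
  · rintro (h | h)
    · left; exact ⟨g1 z, h, f1_g1 z⟩
    · right; exact ⟨g2 z, h, f2_g2 z⟩
  · rintro (⟨w, hw, rfl⟩ | ⟨w, hw, rfl⟩)
    · left; rwa [g1_f1]
    · right; rwa [g2_f2]

theorem continuous_f1 : Continuous f1 := by unfold f1; fun_prop
theorem continuous_f2 : Continuous f2 := by unfold f2; fun_prop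
theorem continuous_g1 : Continuous g1 := by unfold g1; fun_prop
theorem continuous_g2 : Continuous g2 := by unfold g2; fun_prop

theorem convex_R : Convex ℝ R := by
  intro x hx y hy a b ha hb hab
  simp only [R, mem_ofPred_eq] at hx hy ⊢
  simp only [add_re, add_im, real_smul, re_ofReal_mul, im_ofReal_mul]
  obtain ⟨h1, h2, h3, h4, h5, h6, h7, h8⟩ := hx
  obtain ⟨k1, k2, k3, k4, k5, k6, k7, k8⟩ := hy
  have hb' : b = 1 - a := by linarith
  subst hb'
  refine ⟨?_, ?_, ?_, ?_, ?_, ?_, ?_, ?_⟩ <;> nlinarith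

theorem isClosed_R : IsClosed R := by
  have hre : Continuous fun z : ℂ => z.re := continuous_re
  have him : Continuous fun z : ℂ => z.im := continuous_im
  refine (isClosed_le hre continuous_const).inter ?_
  refine (isClosed_le (hre.add him) continuous_const).inter ?_
  refine (isClosed_le him continuous_const).inter ?_
  refine (isClosed_le (him.sub hre) continuous_const).inter ?_
  refine (isClosed_le continuous_const hre).inter ?_
  refine (isClosed_le continuous_const (hre.add him)).inter ?_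
  exact (isClosed_le continuous_const him).inter (isClosed_le (hre.sub him) continuous_const)

theorem norm_R {z : ℂ} (hz : z ∈ R) : ‖z‖ ≤ 5 / 2 := by
  simp only [R, mem_ofPred_eq] at hz
  obtain ⟨h1, h2, h3, h4, h5, h6, h7, h8⟩ := hz
  refine (norm_le_abs_re_add_abs_im z).trans ?_
  have a1 : |z.re| ≤ 3 / 2 := abs_le.2 ⟨by linarith, h1⟩
  have a2 : |z.im| ≤ 1 := abs_le.2 ⟨by linarith, h3⟩
  linarith

theorem isCompact_R : IsCompact R :=
  Metric.isCompact_of_isClosed_isBounded isClosed_R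
    (isBounded_iff_forall_norm_le.2 ⟨5 / 2, fun _ h => norm_R h⟩)

theorem isCompact_A (n : ℕ) : IsCompact (A n) := by
  induction n with
  | zero => exact isCompact_R
  | succ n ih => rw [A_eq]; exact (ih.image continuous_f1).union (ih.image continuous_f2)

theorem isCompact_X : IsCompact X :=
  isCompact_R.of_isClosed_subset (isClosed_iInter fun n => (isCompact_A n).isClosed)
    (iInter_subset A 0)

theorem zero_one_mem (n : ℕ) : (0 : ℂ) ∈ A n ∧ (1 : ℂ) ∈ A n := by
  induction n with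
  | zero =>
    refine ⟨?_, ?_⟩
    · change (0 : ℂ) ∈ R
      simp only [R, mem_ofPred_eq, zero_re, zero_im]; norm_num
    · change (1 : ℂ) ∈ R
      simp only [R, mem_ofPred_eq, one_re, one_im]; norm_num
  | succ n ih =>
    refine ⟨Or.inl ?_, Or.inr ?_⟩
    · have : g1 0 = 0 := by simp [g1]
      rw [this]; exact ih.1
    · have : g2 1 = 1 := by simp [g2]
      rw [this]; exact ih.2

theorem zero_mem_X : (0 : ℂ) ∈ X := mem_X.2 fun n => (zero_one_mem n).1

theorem isPathConnected_A (n : ℕ) : IsPathConnected (A n) := by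
  induction n with
  | zero => exact convex_R.isPathConnected ⟨0, (zero_one_mem 0).1⟩
  | succ n ih =>
    rw [A_eq]
    refine (ih.image continuous_f1).union (ih.image continuous_f2) ⟨f1 1, ⟨1, (zero_one_mem n).2, rfl⟩,
      0, (zero_one_mem n).1, ?_⟩
    simp [f1, f2]

/-- the integral complex numbers -/
def IsInt (a : ℂ) : Prop := ∃ x y : ℤ, a = x + y * I

/-- the four units -/
def IsUn (u : ℂ) : Prop := u = 1 ∨ u = I ∨ u = -1 ∨ u = -I

theorem cover (n : ℕ) : ∀ z : ℂ, ∃ a u w : ℂ, IsInt a ∧ IsUn u ∧ w ∈ A n ∧ z = a + u * w := by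
  induction n with
  | zero =>
    intro z
    refine ⟨⌊z.re⌋ + ⌊z.im⌋ * I, 1, z - (⌊z.re⌋ + ⌊z.im⌋ * I), ⟨_, _, rfl⟩, Or.inl rfl, ?_, by ring⟩
    change _ ∈ R
    have h1 := Int.fract_nonneg z.re
    have h2 := Int.fract_lt_one z.re
    have h3 := Int.fract_nonneg z.im
    have h4 := Int.fract_lt_one z.im
    rw [Int.fract] at h1 h2 h3 h4
    have e1 : (z - (⌊z.re⌋ + ⌊z.im⌋ * I)).re = z.re - ⌊z.re⌋ := by simp
    have e2 : (z - (⌊z.re⌋ + ⌊z.im⌋ * I)).im = z.im - ⌊z.im⌋ := by simp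
    simp only [R, mem_ofPred_eq, e1, e2]
    refine ⟨?_, ?_, ?_, ?_, ?_, ?_, ?_, ?_⟩ <;> linarith
  | succ n ih =>
    intro z
    obtain ⟨a, u, w, ⟨x, y, ha⟩, hu, hw, hz⟩ := ih ((1 - I) * z)
    have hz' : z = (1 + I) / 2 * a + (1 + I) / 2 * u * w := by
      have : z = (1 + I) / 2 * ((1 - I) * z) := by linear_combination (z / 2) * I2
      rw [this, hz]; ring
    rcases Int.even_or_odd (x + y) with ⟨k, hk⟩ | ⟨k, hk⟩
    · -- even
      refine ⟨(1 + I) / 2 * a, u, f1 w, ⟨k - y, k, ?_⟩, hu, ?_, ?_⟩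
      · have hx : (x : ℂ) = 2 * k - y := by
          have : x = 2 * k - y := by omega
          rw [this]; push_cast; ring
        rw [ha, hx]; push_cast
        linear_combination (y / 2 : ℂ) * I2
      · rw [A_succ, g1_f1]; exact Or.inl hw
      · rw [hz', f1]; ring
    · -- odd
      refine ⟨(1 + I) / 2 * (a - I * u), I * u, f2 w, ?_, ?_, ?_, ?_⟩
      · have hx : (x : ℂ) = 2 * k + 1 - y := by
          have : x = 2 * k + 1 - y := by omega
          rw [this]; push_cast; ring
        rcases hu with rfl | rfl | rfl | rfl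
        · refine ⟨k + 1 - y, k, ?_⟩
          rw [ha, hx]; push_cast
          linear_combination ((y - 1) / 2 : ℂ) * I2
        · refine ⟨k + 1 - y, k + 1, ?_⟩
          rw [ha, hx]; push_cast
          linear_combination (y / 2 - 1 / 2 - I / 2 : ℂ) * I2
        · refine ⟨k - y, k + 1, ?_⟩
          rw [ha, hx]; push_cast
          linear_combination ((y + 1) / 2 : ℂ) * I2
        · refine ⟨k - y, k, ?_⟩
          rw [ha, hx]; push_cast
          linear_combination (y / 2 + 1 / 2 + I / 2 : ℂ) * I2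
      · rcases hu with rfl | rfl | rfl | rfl
        · right; left; ring
        · right; right; left; exact I2
        · right; right; right; ring
        · left; linear_combination -I2
      · rw [A_succ, g2_f2]; exact Or.inr hw
      · rw [hz', f2]
        linear_combination (u * w / 2 - u * w * I / 2 * 0) * I2

end Q139.Rep.Levy
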