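import Pool.Agent.Q139.Rep.Levy

/-!
The Lévy dragon is a 2-reptile.
-/

open Set Metric Topology Bornology Complex MeasureTheory

namespace Q139.Rep.Levy

theorem unit_norm {u : ℂ} (hu : IsUn u) : ‖u‖ = 1 := by
  rcases hu with rfl | rfl | rfl | rfl <;> simp

theorem unit_ne {u : ℂ} (hu : IsUn u) : u ≠ 0 := by
  intro h
  have := unit_norm hu
  rw [h, norm_zero] at this
  exact zero_ne_one this

def un : Fin 4 → ℂ := ![1, I, -1, -I]

theorem un_isUn (k : Fin 4) : IsUn (un k) := by
  fin_cases k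
  · left; rfl
  · right; left; rfl
  · right; right; left; rfl
  · right; right; right; rfl

theorem exists_un {u : ℂ} (hu : IsUn u) : ∃ k, un k = u := by
  rcases hu with rfl | rfl | rfl | rfl
  · exact ⟨0, rfl⟩
  · exact ⟨1, rfl⟩
  · exact ⟨2, rfl⟩
  · exact ⟨3, rfl⟩

/-- the affine map attached to an index -/
noncomputable def aff (q : ℤ × ℤ × Fin 4) (z : ℂ) : ℂ := (un q.2.2)⁻¹ * (z - (q.1 + q.2.1 * I))

theorem coverX (z : ℂ) : ∃ q : ℤ × ℤ × Fin 4, aff q z ∈ X := by
  by_contra hcon
  push Not at hcon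
  have h1 : ∀ q : ℤ × ℤ × Fin 4, ∃ N, aff q z ∉ A N := by
    intro q
    have := hcon q
    rw [mem_X] at this
    push Not at this
    exact this
  choose N hN using h1
  obtain ⟨B, hB⟩ := exists_nat_ge (‖z‖ + 5 / 2)
  let F : Finset (ℤ × ℤ × Fin 4) := Finset.Icc (-(B : ℤ)) B ×ˢ Finset.Icc (-(B : ℤ)) B ×ˢ Finset.univ
  let M := F.sup N
  obtain ⟨a, u, w, ⟨x, y, ha⟩, hu, hw, hz⟩ := cover M z
  obtain ⟨k, hk⟩ := exists_un hu
  have hwe : aff (x, y, k) z = w := by
    simp only [aff]
    rw [hk, hz, ha]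
    have := unit_ne hu
    field_simp
    ring
  have hwR : w ∈ R := A_anti (Nat.zero_le M) hw
  have hna : ‖a‖ ≤ B := by
    have h2 : a = z - u * w := by rw [hz]; ring
    rw [h2]
    refine (norm_sub_le _ _).trans ?_
    rw [norm_mul, unit_norm hu, one_mul]
    have := norm_R hwR
    linarith
  have hx : |(x : ℝ)| ≤ B := by
    have h3 : a.re = x := by rw [ha]; simp
    rw [← h3]; exact (abs_re_le_norm a).trans hna
  have hy : |(y : ℝ)| ≤ B := by
    have h3 : a.im = y := by rw [ha]; simp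
    rw [← h3]; exact (abs_im_le_norm a).trans hna
  rw [abs_le] at hx hy
  have hF : (x, y, k) ∈ F := by
    simp only [F, Finset.mem_product, Finset.mem_Icc, Finset.mem_univ, and_true]
    exact ⟨⟨by exact_mod_cast hx.1, by exact_mod_cast hx.2⟩,
      by exact_mod_cast hy.1, by exact_mod_cast hy.2⟩
  have hle : N (x, y, k) ≤ M := Finset.le_sup (f := N) hF
  have h4 := hN (x, y, k)
  rw [hwe] at h4
  exact h4 (A_anti hle hw)

noncomputable def affHomeo (q : ℤ × ℤ × Fin 4) : ℂ ≃ₜ ℂ :=
  (Homeomorph.subRight ((q.1 : ℂ) + q.2.1 * I)).trans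
    (Homeomorph.mulLeft₀ _ (inv_ne_zero (unit_ne (un_isUn q.2.2))))

theorem affHomeo_apply (q : ℤ × ℤ × Fin 4) (z : ℂ) : affHomeo q z = aff q z := rfl

theorem interior_X : (interior X).Nonempty := by
  obtain ⟨q, hq⟩ := nonempty_interior_of_iUnion_of_closed
    (f := fun q : ℤ × ℤ × Fin 4 => affHomeo q ⁻¹' X)
    (fun q => isCompact_X.isClosed.preimage (affHomeo q).continuous)
    (by
      rw [eq_univ_iff_forall]
      intro z
      obtain ⟨q, hq⟩ := coverX z
      exact mem_iUnion.2 ⟨q, hq⟩)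
  rw [← (affHomeo q).preimage_interior] at hq
  obtain ⟨z, hz⟩ := hq
  exact ⟨_, hz⟩

theorem dist_f1 (z w : ℂ) : dist (f1 z) (f1 w) = (√2)⁻¹ * dist z w := by
  have h1 : ‖(1 + I) / 2‖ = (√2)⁻¹ := by
    rw [norm_div]
    have : ‖(1 : ℂ) + I‖ = √2 := by
      rw [Complex.norm_eq_sqrt_sq_add_sq]; norm_num
    rw [this]
    have h2 : ‖(2 : ℂ)‖ = √2 * √2 := by rw [Real.mul_self_sqrt (by norm_num)]; simp
    rw [h2]; field_simp
  rw [dist_eq_norm, dist_eq_norm, f1, f1, ← mul_sub, norm_mul, h1]

theorem dist_f2 (z w : ℂ) : dist (f2 z) (f2 w) = (√2)⁻¹ * dist z w := by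
  have h1 : ‖(1 - I) / 2‖ = (√2)⁻¹ := by
    rw [norm_div]
    have : ‖(1 : ℂ) - I‖ = √2 := by
      rw [Complex.norm_eq_sqrt_sq_add_sq]; norm_num
    rw [this]
    have h2 : ‖(2 : ℂ)‖ = √2 * √2 := by rw [Real.mul_self_sqrt (by norm_num)]; simp
    rw [h2]; field_simp
  rw [dist_eq_norm, dist_eq_norm, f2, f2, add_sub_add_right_eq_sub, ← mul_sub, norm_mul, h1]

noncomputable def h1 : ℂ ≃ₜ ℂ where
  toFun := f1
  invFun := g1
  left_inv := g1_f1
  right_inv := f1_g1
  continuous_toFun := continuous_f1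
  continuous_invFun := continuous_g1

noncomputable def h2 : ℂ ≃ₜ ℂ where
  toFun := f2
  invFun := g2
  left_inv := g2_f2
  right_inv := f2_g2
  continuous_toFun := continuous_f2
  continuous_invFun := continuous_g2

theorem f1_X : f1 '' X ⊆ X := by
  conv_rhs => rw [X_eq]
  exact subset_union_left

theorem f2_X : f2 '' X ⊆ X := by
  conv_rhs => rw [X_eq]
  exact subset_union_right

theorem closure_interior_X : X = closure (interior X) := by
  set C := closure (interior X) with hC
  have hCX : C ⊆ X := closure_minimal interior_subset isCompact_X.isClosed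
  have hf1 : ∀ z ∈ C, f1 z ∈ C := by
    intro z hz
    have h3 : f1 '' interior X ⊆ interior X := by
      have : IsOpen (f1 '' interior X) := h1.isOpenMap _ isOpen_interior
      exact interior_maximal ((image_mono interior_subset).trans f1_X) this
    exact closure_mono h3 (image_closure_subset_closure_image continuous_f1 ⟨z, hz, rfl⟩)
  have hf2 : ∀ z ∈ C, f2 z ∈ C := by
    intro z hz
    have h3 : f2 '' interior X ⊆ interior X := by
      have : IsOpen (f2 '' interior X) := h2.isOpenMap _ isOpen_interior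
      exact interior_maximal ((image_mono interior_subset).trans f2_X) this
    exact closure_mono h3 (image_closure_subset_closure_image continuous_f2 ⟨z, hz, rfl⟩)
  have hCne : C.Nonempty := interior_X.mono subset_closure
  refine subset_antisymm ?_ hCX
  -- points of `X` are at distance at most `5 * (√2)⁻¹ ^ n` from `C`
  have key : ∀ n : ℕ, ∀ z ∈ X, ∃ c ∈ C, dist z c ≤ 5 * (√2)⁻¹ ^ n := by
    intro n
    induction n with
    | zero =>
      intro z hz
      obtain ⟨c, hc⟩ := hCne
      refine ⟨c, hc, ?_⟩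
      have e1 := norm_R (mem_X.1 hz 0)
      have e2 := norm_R (mem_X.1 (hCX hc) 0)
      rw [pow_zero, mul_one, dist_eq_norm]
      exact (norm_sub_le _ _).trans (by linarith)
    | succ n ih =>
      intro z hz
      rw [X_eq] at hz
      rcases hz with ⟨w, hw, rfl⟩ | ⟨w, hw, rfl⟩
      · obtain ⟨c, hc, hd⟩ := ih w hw
        refine ⟨f1 c, hf1 c hc, ?_⟩
        rw [dist_f1, pow_succ]
        have : (0 : ℝ) < (√2)⁻¹ := by positivity
        nlinarith
      · obtain ⟨c, hc, hd⟩ := ih w hw
        refine ⟨f2 c, hf2 c hc, ?_⟩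
        rw [dist_f2, pow_succ]
        have : (0 : ℝ) < (√2)⁻¹ := by positivity
        nlinarith
  intro z hz
  have hCc : IsClosed C := isClosed_closure
  rw [← hCc.closure_eq, Metric.mem_closure_iff]
  intro e he
  have hlt : (√2)⁻¹ < (1 : ℝ) := by
    apply inv_lt_one_of_one_lt₀
    rw [Real.lt_sqrt (by norm_num)]; norm_num
  obtain ⟨n, hn⟩ := exists_pow_lt_of_lt_one (show 0 < e / 5 by positivity) hlt
  obtain ⟨c, hc, hd⟩ := key n z hz
  exact ⟨c, hc, lt_of_le_of_lt hd (by linarith)⟩

theorem volume_mul (c : ℂ) (s : Set ℂ) :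
    volume ((fun z => c * z) '' s) = ENNReal.ofReal (normSq c) * volume s := by
  have h := Measure.addHaar_image_linearMap (volume : Measure ℂ) (Algebra.lmul ℝ ℂ c) s
  have h3 : LinearMap.det (Algebra.lmul ℝ ℂ c) = normSq c := Algebra.norm_complex_apply c
  have h4 : (fun z => c * z) '' s = (Algebra.lmul ℝ ℂ c) '' s := rfl
  rw [h4, h, h3, abs_of_nonneg (normSq_nonneg c)]

theorem volume_f1 (s : Set ℂ) : volume (f1 '' s) = ENNReal.ofReal (1 / 2) * volume s := by
  have h := volume_mul ((1 + I) / 2) s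
  have h3 : normSq ((1 + I) / 2) = 1 / 2 := by
    simp [normSq_apply]
    norm_num
  rw [h3] at h
  exact h

theorem volume_f2 (s : Set ℂ) : volume (f2 '' s) = ENNReal.ofReal (1 / 2) * volume s := by
  have h := volume_mul ((1 - I) / 2) s
  have h3 : normSq ((1 - I) / 2) = 1 / 2 := by
    simp [normSq_apply]
    norm_num
  rw [h3] at h
  have h4 : f2 '' s = (fun z => z + (1 + I) / 2) '' ((fun z => (1 - I) / 2 * z) '' s) := by
    rw [image_image]; rfl
  rw [h4, image_add_right, measure_preimage_add_right, h]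

theorem disjoint_interiors : Disjoint (interior (f1 '' X)) (interior (f2 '' X)) := by
  rw [disjoint_iff_inter_eq_empty]
  by_contra hne
  rw [← ne_eq, ← nonempty_iff_ne_empty] at hne
  have hop : IsOpen (interior (f1 '' X) ∩ interior (f2 '' X)) := isOpen_interior.inter isOpen_interior
  have hpos := hop.measure_pos volume hne
  have hfin : volume X ≠ ⊤ := isCompact_X.measure_lt_top.ne
  have hm2 : MeasurableSet (f2 '' X) := (isCompact_X.image continuous_f2).measurableSet
  have h3 : volume (f1 '' X ∪ f2 '' X) + volume (f1 '' X ∩ f2 '' X) =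
      volume (f1 '' X) + volume (f2 '' X) := measure_union_add_inter _ hm2
  rw [← X_eq, volume_f1, volume_f2, ← add_mul, ← ENNReal.ofReal_add (by norm_num) (by norm_num)] at h3
  have h4 : volume (f1 '' X ∩ f2 '' X) = 0 := by
    have h6 : (1 / 2 + 1 / 2 : ℝ) = 1 := by norm_num
    rw [h6, ENNReal.ofReal_one, one_mul] at h3
    have h7 : volume X + volume (f1 '' X ∩ f2 '' X) = volume X + 0 := by rw [h3, add_zero]
    exact (ENNReal.add_right_inj hfin).1 h7
  have h5 : volume (interior (f1 '' X) ∩ interior (f2 '' X)) ≤ volume (f1 '' X ∩ f2 '' X) :=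
    measure_mono (inter_subset_inter interior_subset interior_subset)
  rw [h4] at h5
  exact absurd (le_antisymm h5 bot_le) hpos.ne'

end Q139.Rep.Levy
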