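import Pool.Agent.Q139.Rep.Levy2

/-!
The Lévy dragon is a 2-reptile with a hole.
-/

open Set Metric Topology Bornology Complex

namespace Q139.Rep.Levy

/-- multiplication by a complex number of norm one followed by a translation -/
noncomputable def rot (c : ℂ) (hc : ‖c‖ = 1) (t : ℂ) : ℂ ≃ᵢ ℂ :=
  IsometryEquiv.mk' (fun z => c * z + t) (fun z => c⁻¹ * (z - t))
    (fun z => by
      have : c ≠ 0 := by rintro rfl; simp at hc
      field_simp
      ring)
    (Isometry.of_dist_eq fun z w => by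
      rw [dist_add_right, dist_eq_norm, ← mul_sub, norm_mul, hc, one_mul, dist_eq_norm])

theorem rot_apply (c : ℂ) (hc : ‖c‖ = 1) (t z : ℂ) : rot c hc t z = c * z + t := rfl

theorem sqrt2_ne : (√2 : ℝ) ≠ 0 := by positivity

theorem normc1 : ‖(1 + I) / (√2 : ℝ)‖ = 1 := by
  rw [norm_div, Complex.norm_real, Real.norm_of_nonneg (Real.sqrt_nonneg 2)]
  have : ‖(1 : ℂ) + I‖ = √2 := by
    rw [Complex.norm_eq_sqrt_sq_add_sq]; norm_num
  rw [this, div_self sqrt2_ne]

theorem normc2 : ‖(1 - I) / (√2 : ℝ)‖ = 1 := by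
  rw [norm_div, Complex.norm_real, Real.norm_of_nonneg (Real.sqrt_nonneg 2)]
  have : ‖(1 : ℂ) - I‖ = √2 := by
    rw [Complex.norm_eq_sqrt_sq_add_sq]; norm_num
  rw [this, div_self sqrt2_ne]

theorem sq2 : ((√2 : ℝ) : ℂ) * ((√2 : ℝ) : ℂ) = 2 := by
  rw [← Complex.ofReal_mul, Real.mul_self_sqrt (by norm_num)]; norm_num

theorem piece1 : piece 2 X (rot _ normc1 0) = f1 '' X := by
  rw [piece, image_image]
  refine image_congr fun z _ => ?_
  have hne : ((√2 : ℝ) : ℂ) ≠ 0 := by exact_mod_cast sqrt2_ne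
  rw [rot_apply, f1, Complex.real_smul]
  push_cast
  have h2 : (2 : ℂ) = ((√2 : ℝ) : ℂ) * ((√2 : ℝ) : ℂ) := sq2.symm
  rw [h2]
  field_simp
  ring

theorem piece2 : piece 2 X (rot _ normc2 ((1 + I) / 2)) = f2 '' X := by
  rw [piece, image_image]
  refine image_congr fun z _ => ?_
  have hne : ((√2 : ℝ) : ℂ) ≠ 0 := by exact_mod_cast sqrt2_ne
  rw [rot_apply, f2, Complex.real_smul]
  push_cast
  have h2 : (1 - I) / ((√2 : ℝ) : ℂ) * (((√2 : ℝ) : ℂ)⁻¹ * z) = (1 - I) / 2 * z := by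
    have h3 : (1 - I) / 2 * z = (1 - I) / (((√2 : ℝ) : ℂ) * ((√2 : ℝ) : ℂ)) * z := by rw [sq2]
    rw [h3]; field_simp
  rw [h2]

theorem reptile : IsReptile 2 X := by
  refine ⟨le_rfl, ⟨isCompact_X.isBounded, closure_interior_X⟩,
    ![rot _ normc1 0, rot _ normc2 ((1 + I) / 2)], ?_, ?_⟩
  · ext z
    rw [mem_iUnion]
    conv_lhs => rw [X_eq]
    constructor
    · rintro (h | h)
      · exact ⟨0, by simp only [Matrix.cons_val_zero]; rw [piece1]; exact h⟩
      · exact ⟨1, by simp only [Matrix.cons_val_one, Matrix.cons_val_zero]; rw [piece2]; exact h⟩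
    · rintro ⟨i, hi⟩
      fin_cases i
      · left; rw [← piece1]; exact hi
      · right; rw [← piece2]; exact hi
  · intro i j hij
    fin_cases i <;> fin_cases j
    · exact absurd rfl hij
    · simp only [Fin.zero_eta, Matrix.cons_val_zero, Fin.mk_one, Matrix.cons_val_one]
      rw [piece1, piece2]; exact disjoint_interiors
    · simp only [Fin.zero_eta, Matrix.cons_val_zero, Fin.mk_one, Matrix.cons_val_one]
      rw [piece1, piece2]; exact disjoint_interiors.symm
    · exact absurd rfl hij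

/-! ### a point outside -/

/-- test of membership in the approximations for rational points -/
def tst : ℕ → ℚ → ℚ → Bool
  | 0, x, y => decide (x ≤ 3 / 2) && decide (x + y ≤ 2) && decide (y ≤ 1) && decide (y - x ≤ 1) &&
      decide (-1 / 2 ≤ x) && decide (-1 / 2 ≤ x + y) && decide (-1 / 4 ≤ y) && decide (x - y ≤ 3 / 2)
  | n + 1, x, y => tst n (x + y) (y - x) || tst n (x - y) (x + y - 1)

theorem tst_sound (n : ℕ) : ∀ (x y : ℚ) (z : ℂ), z.re = x → z.im = y → z ∈ A n → tst n x y = true := by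
  induction n with
  | zero =>
    intro x y z hx hy hz
    change z ∈ R at hz
    simp only [R, mem_ofPred_eq, hx, hy] at hz
    obtain ⟨h1, h2, h3, h4, h5, h6, h7, h8⟩ := hz
    simp only [tst, Bool.and_eq_true, decide_eq_true_eq]
    refine ⟨⟨⟨⟨⟨⟨⟨?_, ?_⟩, ?_⟩, ?_⟩, ?_⟩, ?_⟩, ?_⟩, ?_⟩
    · have : (x : ℝ) ≤ ((3 / 2 : ℚ) : ℝ) := by push_cast; exact h1
      exact_mod_cast this
    · have : ((x + y : ℚ) : ℝ) ≤ ((2 : ℚ) : ℝ) := by push_cast; exact h2
      exact_mod_cast this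
    · have : (y : ℝ) ≤ ((1 : ℚ) : ℝ) := by push_cast; exact h3
      exact_mod_cast this
    · have : ((y - x : ℚ) : ℝ) ≤ ((1 : ℚ) : ℝ) := by push_cast; exact h4
      exact_mod_cast this
    · have : ((-1 / 2 : ℚ) : ℝ) ≤ (x : ℝ) := by push_cast; exact h5
      exact_mod_cast this
    · have : ((-1 / 2 : ℚ) : ℝ) ≤ ((x + y : ℚ) : ℝ) := by push_cast; exact h6
      exact_mod_cast this
    · have : ((-1 / 4 : ℚ) : ℝ) ≤ (y : ℝ) := by push_cast; exact h7
      exact_mod_cast this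
    · have : ((x - y : ℚ) : ℝ) ≤ ((3 / 2 : ℚ) : ℝ) := by push_cast; exact h8
      exact_mod_cast this
  | succ n ih =>
    intro x y z hx hy hz
    simp only [tst, Bool.or_eq_true]
    rcases hz with h | h
    · left
      exact ih _ _ (g1 z) (by rw [g1_re, hx, hy]; push_cast; rfl)
        (by rw [g1_im, hx, hy]; push_cast; rfl) h
    · right
      exact ih _ _ (g2 z) (by rw [g2_re, hx, hy]; push_cast; rfl)
        (by rw [g2_im, hx, hy]; push_cast; rfl) h

/-- the centre of the hole -/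
noncomputable def p0 : ℂ := ⟨1 / 2, 5 / 8⟩

theorem p0_notMem : p0 ∉ X := by
  intro h
  have h1 := tst_sound 6 (1 / 2) (5 / 8) p0 (by simp [p0]) (by simp [p0]) (mem_X.1 h 6)
  have h2 : tst 6 (1 / 2) (5 / 8) = false := by decide +kernel
  rw [h2] at h1
  exact Bool.noConfusion h1

/-! ### the ring -/

/-- the eight pieces of the ring: `z ↦ (a + b i + (u + v i) z) / 8` -/
noncomputable def E (a b u v : ℝ) (z : ℂ) : ℂ :=
  ⟨(a + u * z.re - v * z.im) / 8, (b + v * z.re + u * z.im) / 8⟩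

theorem E_re (a b u v : ℝ) (z : ℂ) : (E a b u v z).re = (a + u * z.re - v * z.im) / 8 := rfl
theorem E_im (a b u v : ℝ) (z : ℂ) : (E a b u v z).im = (b + v * z.re + u * z.im) / 8 := rfl

theorem continuous_E (a b u v : ℝ) : Continuous (E a b u v) := by
  have h : E a b u v = fun z : ℂ => (((a + u * z.re - v * z.im) / 8 : ℝ) : ℂ) +
      (((b + v * z.re + u * z.im) / 8 : ℝ) : ℂ) * I := by
    ext z
    apply Complex.ext
    · rw [E_re]; simp
    · rw [E_im]; simp
  rw [h]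
  have h1 : Continuous fun z : ℂ => z.re := continuous_re
  have h2 : Continuous fun z : ℂ => z.im := continuous_im
  fun_prop

theorem g1_A {n : ℕ} {z : ℂ} (h : g1 z ∈ A n) : z ∈ A (n + 1) := Or.inl h
theorem g2_A {n : ℕ} {z : ℂ} (h : g2 z ∈ A n) : z ∈ A (n + 1) := Or.inr h

theorem E34 {n : ℕ} {z : ℂ} (hz : z ∈ A n) : E (3) (5) (0) (1) z ∈ A (n + 6) := by
  apply g2_A; apply g1_A; apply g1_A; apply g1_A; apply g2_A; apply g1_A
  have : g1 (g2 (g1 (g1 (g1 (g2 (E (3) (5) (0) (1) z)))))) = z := by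
    apply Complex.ext
    · simp only [g1_re, g1_im, g2_re, g2_im, E_re, E_im]; ring
    · simp only [g1_re, g1_im, g2_re, g2_im, E_re, E_im]; ring
  rw [this]; exact hz

theorem E35 {n : ℕ} {z : ℂ} (hz : z ∈ A n) : E (3) (6) (1) (0) z ∈ A (n + 6) := by
  apply g2_A; apply g1_A; apply g1_A; apply g1_A; apply g2_A; apply g2_A
  have : g2 (g2 (g1 (g1 (g1 (g2 (E (3) (6) (1) (0) z)))))) = z := by
    apply Complex.ext
    · simp only [g1_re, g1_im, g2_re, g2_im, E_re, E_im]; ring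
    · simp only [g1_re, g1_im, g2_re, g2_im, E_re, E_im]; ring
  rw [this]; exact hz

theorem E28 {n : ℕ} {z : ℂ} (hz : z ∈ A n) : E (4) (6) (1) (0) z ∈ A (n + 6) := by
  apply g1_A; apply g2_A; apply g2_A; apply g2_A; apply g1_A; apply g1_A
  have : g1 (g1 (g2 (g2 (g2 (g1 (E (4) (6) (1) (0) z)))))) = z := by
    apply Complex.ext
    · simp only [g1_re, g1_im, g2_re, g2_im, E_re, E_im]; ring
    · simp only [g1_re, g1_im, g2_re, g2_im, E_re, E_im]; ring
  rw [this]; exact hz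

theorem E29 {n : ℕ} {z : ℂ} (hz : z ∈ A n) : E (5) (6) (0) (-1) z ∈ A (n + 6) := by
  apply g1_A; apply g2_A; apply g2_A; apply g2_A; apply g1_A; apply g2_A
  have : g2 (g1 (g2 (g2 (g2 (g1 (E (5) (6) (0) (-1) z)))))) = z := by
    apply Complex.ext
    · simp only [g1_re, g1_im, g2_re, g2_im, E_re, E_im]; ring
    · simp only [g1_re, g1_im, g2_re, g2_im, E_re, E_im]; ring
  rw [this]; exact hz

theorem E33 {n : ℕ} {z : ℂ} (hz : z ∈ A n) : E (3) (4) (0) (1) z ∈ A (n + 6) := by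
  apply g2_A; apply g1_A; apply g1_A; apply g1_A; apply g1_A; apply g2_A
  have : g2 (g1 (g1 (g1 (g1 (g2 (E (3) (4) (0) (1) z)))))) = z := by
    apply Complex.ext
    · simp only [g1_re, g1_im, g2_re, g2_im, E_re, E_im]; ring
    · simp only [g1_re, g1_im, g2_re, g2_im, E_re, E_im]; ring
  rw [this]; exact hz

theorem E32 {n : ℕ} {z : ℂ} (hz : z ∈ A n) : E (4) (4) (-1) (0) z ∈ A (n + 6) := by
  apply g2_A; apply g1_A; apply g1_A; apply g1_A; apply g1_A; apply g1_A
  have : g1 (g1 (g1 (g1 (g1 (g2 (E (4) (4) (-1) (0) z)))))) = z := by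
    apply Complex.ext
    · simp only [g1_re, g1_im, g2_re, g2_im, E_re, E_im]; ring
    · simp only [g1_re, g1_im, g2_re, g2_im, E_re, E_im]; ring
  rw [this]; exact hz

theorem E31 {n : ℕ} {z : ℂ} (hz : z ∈ A n) : E (5) (4) (-1) (0) z ∈ A (n + 6) := by
  apply g1_A; apply g2_A; apply g2_A; apply g2_A; apply g2_A; apply g2_A
  have : g2 (g2 (g2 (g2 (g2 (g1 (E (5) (4) (-1) (0) z)))))) = z := by
    apply Complex.ext
    · simp only [g1_re, g1_im, g2_re, g2_im, E_re, E_im]; ring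
    · simp only [g1_re, g1_im, g2_re, g2_im, E_re, E_im]; ring
  rw [this]; exact hz

theorem E30 {n : ℕ} {z : ℂ} (hz : z ∈ A n) : E (5) (5) (0) (-1) z ∈ A (n + 6) := by
  apply g1_A; apply g2_A; apply g2_A; apply g2_A; apply g2_A; apply g1_A
  have : g1 (g2 (g2 (g2 (g2 (g1 (E (5) (5) (0) (-1) z)))))) = z := by
    apply Complex.ext
    · simp only [g1_re, g1_im, g2_re, g2_im, E_re, E_im]; ring
    · simp only [g1_re, g1_im, g2_re, g2_im, E_re, E_im]; ring
  rw [this]; exact hz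


end Q139.Rep.Levy
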