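import Pool.Agent.Q139.Rep.Wada
import Pool.Agent.Q139.Rep.Milman

/-!
A reptile that is the closure of a connected open set has no hole.
-/

open Set Metric Topology Bornology

namespace Q139.Rep

theorem extreme_notMem_interior {K : Set ℂ} {e : ℂ} (he : e ∈ extremePoints ℝ K) :
    e ∉ interior K := by
  intro hi
  obtain ⟨ε, hε, hb⟩ := Metric.isOpen_iff.1 isOpen_interior e hi
  have h1 : e - (ε / 2 : ℝ) ∈ K := interior_subset (hb (by
    rw [mem_ball, dist_eq_norm, sub_sub_cancel_left, norm_neg, Complex.norm_real,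
      Real.norm_of_nonneg (by linarith)]
    linarith))
  have h2 : e + (ε / 2 : ℝ) ∈ K := interior_subset (hb (by
    rw [mem_ball, dist_eq_norm, add_sub_cancel_left, Complex.norm_real,
      Real.norm_of_nonneg (by linarith)]
    linarith))
  have h3 : e ∈ openSegment ℝ (e - (ε / 2 : ℝ)) (e + (ε / 2 : ℝ)) := by
    refine ⟨1 / 2, 1 / 2, by norm_num, by norm_num, by norm_num, ?_⟩
    simp only [Complex.real_smul]
    push_cast
    ring
  have h4 := he.2 h1 h2 h3
  have h5 : ((ε / 2 : ℝ) : ℂ) = 0 := by linear_combination -h4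
  rw [Complex.ofReal_eq_zero] at h5
  linarith

theorem image_convexHull_iso (h : ℂ ≃ᵢ ℂ) (X : Set ℂ) :
    h '' convexHull ℝ X = convexHull ℝ (h '' X) := by
  have := AffineMap.image_convexHull
    (h.toRealAffineIsometryEquiv.toAffineEquiv.toAffineMap : ℂ →ᵃ[ℝ] ℂ) X
  exact this

theorem no_hole {U : Set ℂ} (hU : IsOpen U) (hUc : IsConnected U) {n : ℕ}
    (hX : IsReptile n (closure U)) : ¬ HasHole (closure U) := by
  rintro ⟨z, hz, hzb⟩
  set X := closure U with hXd
  have hXc : IsCompact X := Metric.isCompact_of_isClosed_isBounded isClosed_closure hX.2.1.1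
  set K := closure (convexHull ℝ X) with hKd
  have hKc : IsCompact K :=
    Metric.isCompact_of_isClosed_isBounded isClosed_closure (isBounded_convexHull.2 hX.2.1.1).closure
  have hKconv : Convex ℝ K := (convex_convexHull ℝ X).closure
  have hXK : X ⊆ K := (subset_convexHull ℝ X).trans subset_closure
  have hUX : U ⊆ X := subset_closure
  obtain ⟨c, hc⟩ := hUc.nonempty
  have hcK : c ∈ interior K := interior_maximal (hUX.trans hXK) hU hc
  set H := connectedComponentIn Xᶜ z with hHd
  have hHo : IsOpen H := hXc.isClosed.isOpen_compl.connectedComponentIn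
  have hzH : z ∈ H := mem_connectedComponentIn hz
  have hHX : H ⊆ Xᶜ := connectedComponentIn_subset _ _
  -- the hole lies in the convex hull
  have hHK : H ⊆ K := by
    by_contra hcon
    rw [not_subset] at hcon
    obtain ⟨y, hyH, hyK⟩ := hcon
    have hsub : Kᶜ ⊆ H := by
      intro o ho
      have h1 := joined_out hKc hKconv hcK (e := y) (fun h => hyK (interior_subset h)) ho
      have h2 : Kᶜ ∪ {y} ⊆ Xᶜ := by
        rintro x (hx | hx)
        · exact fun h => hx (hXK h)
        · rw [mem_singleton_iff] at hx; subst hx; exact hHX hyH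
      obtain ⟨P, hP, -, hPp, hyP, hoP, -⟩ := exists_range h1
      have h3 := hPp.subset_connectedComponentIn hyP (hP.trans h2)
      have h4 : connectedComponentIn Xᶜ y = H := (connectedComponentIn_eq hyH).symm
      rw [h4] at h3
      exact h3 hoP
    have h5 : IsBounded (univ : Set ℂ) := by
      rw [← union_compl_self K]
      exact hKc.isBounded.union (hzb.subset hsub)
    exact NormedSpace.unbounded_univ ℝ ℂ h5
  -- a bound for distances in `K`
  obtain ⟨D, hD0, hD⟩ : ∃ D > 0, ∀ x ∈ K, ∀ y ∈ K, dist x y ≤ D := by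
    refine ⟨Metric.diam K + 1, by have := Metric.diam_nonneg (s := K); linarith, ?_⟩
    intro x hx y hy
    have := Metric.dist_le_diam_of_mem hKc.isBounded hx hy
    linarith
  -- the displaced copy
  obtain ⟨h, hhX, hhH⟩ : ∃ h : ℂ ≃ᵢ ℂ, Disjoint (h '' U) X ∧ (h '' U ∩ H).Nonempty := by
    obtain ⟨ε, hε, hb⟩ := Metric.isOpen_iff.1 hU c hc
    obtain ⟨r, hr0, hr, ι, _, φ, h1, h2, h3⟩ := hX.small (e := ε / D) (by positivity)
    have hrD : r * D < ε := by rwa [lt_div_iff₀ hD0] at hr
    have hφX : ∀ i, φ i '' X = closure (φ i '' U) := fun i => (φ i).image_closure U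
    obtain ⟨i0, x0, hx0, hx0c⟩ : ∃ i, ∃ x ∈ X, φ i x = c := by
      have : c ∈ ⋃ i, φ i '' X := by rw [← h2]; exact hUX hc
      obtain ⟨i, x, hx, hxc⟩ := mem_iUnion.1 this
      exact ⟨i, x, hx, hxc⟩
    have hKb : φ i0 '' K ⊆ X := by
      rintro _ ⟨k, hk, rfl⟩
      apply hUX
      apply hb
      rw [mem_ball, ← hx0c, h1]
      exact lt_of_le_of_lt (mul_le_mul_of_nonneg_left (hD _ hk _ (hXK hx0)) hr0.le) hrD
    have hzX : φ i0 z ∈ ⋃ i, φ i '' X := by
      rw [← h2]; exact hKb ⟨z, hHK hzH, rfl⟩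
    obtain ⟨i, hi⟩ := mem_iUnion.1 hzX
    rw [hφX] at hi
    have hopen : IsOpen (φ i0 '' H) := (φ i0).isOpenMap _ hHo
    obtain ⟨_, ⟨y, hyH, rfl⟩, y', hy', hyy⟩ := _root_.mem_closure_iff.1 hi _ hopen ⟨z, hzH, rfl⟩
    have hne : i ≠ i0 := by
      rintro rfl
      rw [(φ i).injective.eq_iff] at hyy
      subst hyy
      exact hHX hyH (hUX hy')
    let h : ℂ ≃ᵢ ℂ := IsometryEquiv.mk' (fun x => (φ i0).symm (φ i x))
      (fun x => (φ i).symm (φ i0 x)) (fun x => by simp) (Isometry.of_dist_eq fun x y => by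
        have h4 : ∀ a b, dist ((φ i0).symm a) ((φ i0).symm b) = r⁻¹ * dist a b := by
          intro a b
          have h5 := h1 i0 ((φ i0).symm a) ((φ i0).symm b)
          rw [(φ i0).apply_symm_apply, (φ i0).apply_symm_apply] at h5
          rw [h5]; field_simp
        rw [h4, h1]; field_simp)
    have hh : ∀ x, h x = (φ i0).symm (φ i x) := fun x => rfl
    refine ⟨h, ?_, ⟨y, ⟨y', hy', ?_⟩, hyH⟩⟩
    · have hdis : Disjoint (φ i '' U) (φ i0 '' U) := by
        have e1 : ∀ j, φ j '' U ⊆ interior (φ j '' X) := fun j =>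
          interior_maximal (image_mono hUX) ((φ j).isOpenMap _ hU)
        exact (h3 i i0 hne).mono (e1 i) (e1 i0)
      have hdis2 : Disjoint (h '' U) U := by
        rw [disjoint_left] at hdis ⊢
        rintro _ ⟨x, hx, rfl⟩ hx'
        refine hdis ⟨x, hx, rfl⟩ ⟨h x, hx', ?_⟩
        rw [hh, (φ i0).apply_symm_apply]
      exact hdis2.closure_right (h.toHomeomorph.isOpenMap _ hU)
    · rw [hh, hyy, (φ i0).symm_apply_apply]
  -- apply the lemma
  set V := h '' U with hVd
  have hVo : IsOpen V := h.toHomeomorph.isOpenMap _ hU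
  have hVc : IsConnected V := hUc.image h h.continuous.continuousOn
  have hVX : V ⊆ Xᶜ := fun x hx hx' => disjoint_left.1 hhX hx hx'
  have hVH : V ⊆ H := by
    obtain ⟨y, hyV, hyH⟩ := hhH
    have h1 := hVc.isPreconnected.subset_connectedComponentIn hyV hVX
    rw [(connectedComponentIn_eq hyH).symm] at h1
    exact h1
  have hVK : V ⊆ K := hVH.trans hHK
  have hclV : closure V = h '' X := (h.toHomeomorph.image_closure U).symm
  have himK : h '' K = closure (convexHull ℝ (h '' X)) := by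
    rw [← image_convexHull_iso]
    exact h.toHomeomorph.image_closure _
  have hhK : h '' K = K := by
    apply image_eq_of_subset hKc
    rw [himK, ← hclV]
    exact closure_minimal (convexHull_min (closure_minimal hVK hKc.isClosed) hKconv) hKc.isClosed
  obtain ⟨e, he, hext⟩ := three_extreme hKc hKconv ⟨c, hcK⟩
  have heX : ∀ i, e i ∈ X := fun i =>
    Q139.Milman.milman hKc hKconv hXc hXK Subset.rfl (hext i)
  have heV : ∀ i, e i ∈ closure V := by
    intro i
    rw [hclV]
    refine Q139.Milman.milman hKc hKconv (hXc.image h.continuous) ?_ ?_ (hext i)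
    · rw [← hclV]; exact closure_minimal hVK hKc.isClosed
    · rw [← himK, hhK]
  refine no_wada hU hUc hVo hVc hKc hKconv (hUX.trans hXK) hVK hhX he
    (fun i => extreme_notMem_interior (hext i)) heV heX ?_
  intro i δ hδ
  obtain ⟨r, hr0, hr, ι, _, φ, h1, h2, -⟩ := hX.small (e := δ / D) (by positivity)
  have hrD : r * D < δ := by rwa [lt_div_iff₀ hD0] at hr
  obtain ⟨j, x, hx, hxe⟩ : ∃ j, ∃ x ∈ X, φ j x = e i := by
    have : e i ∈ ⋃ i, φ i '' X := by rw [← h2]; exact heX i
    obtain ⟨i, x, hx, hxc⟩ := mem_iUnion.1 this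
    exact ⟨i, x, hx, hxc⟩
  have hsub : φ j '' X ⊆ X := by
    conv_rhs => rw [h2]
    exact subset_iUnion (fun i => φ i '' X) j
  refine ⟨φ j '' X, hsub, hXc.image (φ j).continuous, ?_, ⟨x, hx, hxe⟩, ?_, ?_⟩
  · exact hUc.isPreconnected.closure.image _ (φ j).continuous.continuousOn
  · rintro _ ⟨y, hy, rfl⟩
    rw [mem_ball, ← hxe, h1]
    exact lt_of_le_of_lt (mul_le_mul_of_nonneg_left (hD _ (hXK hy) _ (hXK hx)) hr0.le) hrD
  · have hop : IsOpen (φ j '' U) := (φ j).isOpenMap _ hU
    have hc' : φ j c ∈ X := hsub ⟨c, hUX hc, rfl⟩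
    obtain ⟨y, hy, hyU⟩ := _root_.mem_closure_iff.1 hc' _ hop ⟨c, hc, rfl⟩
    exact ⟨y, image_mono hUX hy, hyU⟩

end Q139.Rep
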