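import Pool.Agent.Q139.Rep.Defs
import Pool.Agent.Helper479.Bond.VK

/-!
Two disjoint connected open sets whose closures share three extreme points of a convex set: not
possible if one of the closures is made of small connected pieces.
-/

open Set Metric Topology Bornology

namespace Q139.Rep

theorem joined_thickening {C : Set ℂ} (hC : IsPreconnected C) {r : ℝ} (hr : 0 < r) {x y : ℂ}
    (hx : x ∈ C) (hy : y ∈ C) : JoinedIn (thickening r C) x y := by
  have hsub : C ⊆ thickening r C := self_subset_thickening hr C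
  have hpre : IsPreconnected (thickening r C) := by
    refine isPreconnected_of_forall x fun z hz => ?_
    obtain ⟨c, hc, hzc⟩ := mem_thickening_iff.1 hz
    refine ⟨C ∪ ball c r, union_subset hsub (ball_subset_thickening hc r), Or.inl hx,
      Or.inr hzc, ?_⟩
    exact hC.union c hc (mem_ball_self hr) (convex_ball c r).isPreconnected
  have hcon : IsConnected (thickening r C) := ⟨⟨x, hsub hx⟩, hpre⟩
  exact (isOpen_thickening.isConnected_iff_isPathConnected.1 hcon).joinedIn x (hsub hx) y (hsub hy)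

/-- a joined pair lies in a compact connected subset, itself joined -/
theorem exists_range {S : Set ℂ} {x y : ℂ} (h : JoinedIn S x y) :
    ∃ P ⊆ S, IsCompact P ∧ IsPreconnected P ∧ x ∈ P ∧ y ∈ P ∧ JoinedIn P x y := by
  obtain ⟨γ, hγ⟩ := h
  refine ⟨range γ, ?_, isCompact_range γ.continuous, isPreconnected_range γ.continuous,
    ⟨0, γ.source⟩, ⟨1, γ.target⟩, ⟨γ, fun t => ⟨t, rfl⟩⟩⟩
  rintro _ ⟨t, rfl⟩
  exact hγ t

theorem no_wada {U V K : Set ℂ} (hU : IsOpen U) (hUc : IsConnected U) (hV : IsOpen V)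
    (hVc : IsConnected V) (hK : IsCompact K) (hKc : Convex ℝ K) (hUK : U ⊆ K) (hVK : V ⊆ K)
    (hUV : Disjoint V (closure U)) {e : Fin 3 → ℂ} (he : Function.Injective e)
    (hext : ∀ i, e i ∉ interior K) (heV : ∀ i, e i ∈ closure V) (heU : ∀ i, e i ∈ closure U)
    (hY : ∀ i, ∀ δ > 0, ∃ Y ⊆ closure U, IsCompact Y ∧ IsPreconnected Y ∧ e i ∈ Y ∧
      Y ⊆ ball (e i) δ ∧ (Y ∩ U).Nonempty) : False := by
  classical
  obtain ⟨m0, hm0⟩ := hUc.nonempty
  obtain ⟨m1, hm1⟩ := hVc.nonempty
  have hUi : U ⊆ interior K := interior_maximal hUK hU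
  have hVi : V ⊆ interior K := interior_maximal hVK hV
  have hclU : closure U ⊆ K := closure_minimal hUK hK.isClosed
  have heK : ∀ i, e i ∈ K := fun i => hclU (heU i)
  obtain ⟨o, ho⟩ : ∃ o, o ∉ K := by
    by_contra hcon
    push Not at hcon
    have : K = univ := eq_univ_of_forall hcon
    exact noncompact_univ ℂ (this ▸ hK)
  -- separation of the three points
  obtain ⟨δ0, hδ0, hsep⟩ : ∃ δ > 0, ∀ i j, i ≠ j → δ ≤ dist (e i) (e j) := by
    let f : Fin 3 × Fin 3 → ℝ := fun p => if p.1 = p.2 then 1 else dist (e p.1) (e p.2)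
    have hf : ∀ p, 0 < f p := by
      intro p
      by_cases h : p.1 = p.2
      · simp [f, h]
      · simp only [f, h, if_false]
        exact dist_pos.2 fun h' => h (he h')
    obtain ⟨q, -, hq⟩ := Finset.exists_min_image (Finset.univ : Finset (Fin 3 × Fin 3)) f
      ⟨(0, 0), Finset.mem_univ _⟩
    refine ⟨f q, hf q, fun i j hij => ?_⟩
    have := hq (i, j) (Finset.mem_univ _)
    simpa [f, hij] using this
  -- the connected sets on the side of `U`
  have hC : ∀ i, ∃ C ⊆ closure U, IsCompact C ∧ IsPreconnected C ∧ e i ∈ C ∧ m0 ∈ C ∧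
      ∀ j, j ≠ i → e j ∉ C := by
    intro i
    obtain ⟨Y, hYU, hYc, hYp, heY, hYb, w, hwY, hwU⟩ := hY i δ0 hδ0
    have hj : JoinedIn U w m0 :=
      (hU.isConnected_iff_isPathConnected.1 hUc).joinedIn w hwU m0 hm0
    obtain ⟨P, hPU, hPc, hPp, hwP, hmP, -⟩ := exists_range hj
    refine ⟨Y ∪ P, union_subset hYU (hPU.trans subset_closure), hYc.union hPc,
      hYp.union w hwY hwP hPp, Or.inl heY, Or.inr hmP, ?_⟩
    rintro j hji (h | h)
    · have h1 := hYb h
      rw [mem_ball] at h1
      exact absurd (hsep j i hji) (not_le.2 h1)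
    · exact hext j (hUi (hPU h))
  choose C hCU hCc hCp heC hmC hCe using hC
  -- small radius
  obtain ⟨δ1, hδ1, hδ10, hball⟩ : ∃ δ > 0, δ ≤ δ0 ∧ ∀ i j, j ≠ i → Disjoint (ball (e j) δ) (C i) := by
    have h1 : ∀ p : Fin 3 × Fin 3, ∃ δ > 0, p.2 ≠ p.1 → Disjoint (ball (e p.2) δ) (C p.1) := by
      intro p
      by_cases hp : p.2 = p.1
      · exact ⟨1, one_pos, fun h => absurd hp h⟩
      · have : (C p.1)ᶜ ∈ 𝓝 (e p.2) := (hCc p.1).isClosed.isOpen_compl.mem_nhds (hCe p.1 p.2 hp)
        obtain ⟨δ, hδ, hb⟩ := Metric.mem_nhds_iff.1 this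
        exact ⟨δ, hδ, fun _ => disjoint_left.2 fun x hx hxC => hb hx hxC⟩
    choose d hd hd' using h1
    obtain ⟨q, -, hq⟩ := Finset.exists_min_image (Finset.univ : Finset (Fin 3 × Fin 3)) d
      ⟨(0, 0), Finset.mem_univ _⟩
    refine ⟨min δ0 (d q), lt_min hδ0 (hd q), min_le_left _ _, fun i j hji => ?_⟩
    refine (hd' (i, j) hji).mono_left (ball_subset_ball ?_)
    exact (min_le_right _ _).trans (hq (i, j) (Finset.mem_univ _))
  -- the paths on the side of `V`
  have hQ : ∀ j, ∃ Q ⊆ (ball (e j) δ1 ∩ K) ∪ V, IsCompact Q ∧ IsPreconnected Q ∧ e j ∈ Q ∧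
      m1 ∈ Q ∧ JoinedIn Q (e j) m1 := by
    intro j
    obtain ⟨v, hvb, hvV⟩ := mem_closure_iff_nhds.1 (heV j) _ (ball_mem_nhds (e j) hδ1)
    have h1 : JoinedIn (ball (e j) δ1 ∩ K) (e j) v := by
      apply JoinedIn.of_segment_subset
      exact ((convex_ball _ _).inter hKc).segment_subset ⟨mem_ball_self hδ1, heK j⟩ ⟨hvb, hVK hvV⟩
    have h2 : JoinedIn V v m1 :=
      (hV.isConnected_iff_isPathConnected.1 hVc).joinedIn v hvV m1 hm1
    exact exists_range ((h1.mono subset_union_left).trans (h2.mono subset_union_right))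
  choose Q hQs hQc _ _ _ hQj using hQ
  -- the outer paths
  have hO : ∀ j, ∃ O ⊆ Kᶜ ∪ {e j}, IsCompact O ∧ IsPreconnected O ∧ e j ∈ O ∧
      o ∈ O ∧ JoinedIn O (e j) o := fun j =>
    exists_range (joined_out hK hKc (hUi hm0) (hext j) ho)
  choose O hOs hOc _ _ _ hOj using hO
  have dQO : ∀ i j, i ≠ j → Disjoint (Q i) (O j) := by
    intro i j hij
    rw [disjoint_left]
    intro x hx hx'
    have hxK : x ∈ K := by
      rcases hQs i hx with h | h
      · exact h.2
      · exact hVK h
    rcases hOs j hx' with h | h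
    · exact h hxK
    · rw [mem_singleton_iff] at h
      subst h
      rcases hQs i hx with h | h
      · have h1 : dist (e j) (e i) < δ1 := h.1
        have := hsep j i hij.symm
        linarith
      · exact hext j (hVi h)
  have dCQ : ∀ i j, i ≠ j → Disjoint (C i) (Q j) := by
    intro i j hij
    rw [disjoint_left]
    intro x hx hx'
    rcases hQs j hx' with h | h
    · exact disjoint_left.1 (hball i j hij.symm) h.1 hx
    · exact disjoint_left.1 hUV h (hCU i hx)
  have dCO : ∀ i j, i ≠ j → Disjoint (C i) (O j) := by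
    intro i j hij
    rw [disjoint_left]
    intro x hx hx'
    rcases hOs j hx' with h | h
    · exact h (hclU (hCU i hx))
    · rw [mem_singleton_iff] at h
      subst h
      exact hCe i j hij.symm hx
  -- thickening
  have hη : ∀ i, ∃ η > 0, ∀ j, i ≠ j → Disjoint (thickening η (C i)) (Q j) ∧
      Disjoint (thickening η (C i)) (O j) := by
    intro i
    let B : Set ℂ := ⋃ j : Fin 3, ⋃ (_ : i ≠ j), (Q j ∪ O j)
    have hB : IsClosed B := by
      apply isClosed_iUnion_of_finite; intro j
      apply isClosed_iUnion_of_finite; intro _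
      exact (hQc j).isClosed.union (hOc j).isClosed
    have hd : Disjoint (C i) B := by
      rw [disjoint_iUnion_right]; intro j
      rw [disjoint_iUnion_right]; intro hij
      exact (dCQ i j hij).union_right (dCO i j hij)
    obtain ⟨η, hη, hdt⟩ := hd.exists_thickenings (hCc i) hB
    refine ⟨η, hη, fun j hij => ?_⟩
    have h1 : Disjoint (thickening η (C i)) B :=
      hdt.mono_right (self_subset_thickening hη B)
    have h2 : Q j ∪ O j ⊆ B := by
      intro x hx
      exact mem_iUnion.2 ⟨j, mem_iUnion.2 ⟨hij, hx⟩⟩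
    exact ⟨h1.mono_right (subset_union_left.trans h2), h1.mono_right (subset_union_right.trans h2)⟩
  choose η hη0 hηQ using hη
  -- the drawing of `K₃,₃`
  let idx : Fin 6 → Fin 3 := fun a => ⟨a.1 % 3, Nat.mod_lt _ (by norm_num)⟩
  let p : Fin 6 → ℂ := fun a => if a.1 < 3 then e (idx a) else if a.1 = 3 then m0 else
    if a.1 = 4 then m1 else o
  let S : Fin 6 → Fin 6 → Set ℂ := fun a b => if b.1 = 3 then thickening (η (idx a)) (C (idx a))
    else if b.1 = 4 then Q (idx a) else O (idx a)
  refine Pool.Agent.Helper479.Bond.VK.k33_joined p S ?_ ?_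
  · intro a b ha hb
    have hpa : p a = e (idx a) := by simp only [p, ha, if_true]
    have hb3 : ¬ b.1 < 3 := by omega
    by_cases h3 : b.1 = 3
    · have hpb : p b = m0 := by simp [p, h3]
      have hS : S a b = thickening (η (idx a)) (C (idx a)) := by simp only [S, h3, if_true]
      rw [hpa, hpb, hS]
      exact joined_thickening (hCp _) (hη0 _) (heC _) (hmC _)
    · by_cases h4 : b.1 = 4
      · have hpb : p b = m1 := by simp [p, h4]
        have hS : S a b = Q (idx a) := by simp [S, h4]
        rw [hpa, hpb, hS]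
        exact hQj _
      · have hpb : p b = o := by simp only [p, hb3, if_false, h3, h4]
        have hS : S a b = O (idx a) := by simp only [S, h3, if_false, h4]
        rw [hpa, hpb, hS]
        exact hOj _
  · intro a b c d ha hb hc hd hac hbd
    have hidx : idx a ≠ idx c := by
      intro h
      have h1 := congrArg Fin.val h
      simp only [idx] at h1
      rw [Nat.mod_eq_of_lt ha, Nat.mod_eq_of_lt hc] at h1
      exact hac (Fin.ext h1)
    have hbd' : b.1 ≠ d.1 := fun h => hbd (Fin.ext h)
    have hb6 := b.2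
    have hd6 := d.2
    simp only [S]
    by_cases hb3 : b.1 = 3
    · have hd3 : d.1 ≠ 3 := fun h => hbd' (hb3.trans h.symm)
      by_cases hd4 : d.1 = 4
      · simp only [hb3, if_true, hd4]
        simpa using (hηQ _ _ hidx).1
      · simp only [hb3, if_true, hd3, if_false, hd4]
        exact (hηQ _ _ hidx).2
    · by_cases hb4 : b.1 = 4
      · by_cases hd3 : d.1 = 3
        · simp only [hb4, hd3, if_true]
          simpa using ((hηQ _ _ hidx.symm).1).symm
        · have hd4 : d.1 ≠ 4 := fun h => hbd' (hb4.trans h.symm)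
          simp only [hb4, hd3, if_false, hd4]
          simpa using dQO _ _ hidx
      · by_cases hd3 : d.1 = 3
        · simp only [hb3, hb4, if_false, hd3, if_true]
          exact ((hηQ _ _ hidx.symm).2).symm
        · have hd4 : d.1 = 4 := by omega
          simp only [hb3, hb4, if_false, hd4]
          simpa using (dQO _ _ hidx.symm).symm

end Q139.Rep
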